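import Pool.Agent.Helper63.Sey3.Basic

/-!
# Project SEY3 (MP_b6b2d3_co): Seymour's conjecture away from the extremal case

THEOREM (`GoalMAIN`). For every `δ > 0` there are `K` and `ε > 0` such that for `r ≥ K`, `n ≥ K r`, every graph `G`
with `n` vertices, `δ(G) ≥ r n / (r + 1)` and `α(G) ≤ (1 - δ) n / (r + 1)` contains the
`⌊(1 + ε) r⌋`-th power of `C_n`. (Always `α(G) ≤ n / (r + 1)`.)

PLAN. `H` = complement, `s = r + 1`, `Δ = n / s`.
1. (`GoalDECA`, `GoalDECB`) Join some pairs of nonadjacent vertices of `H` to units, such that in the graph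
   `H'` of the units all degrees are at most `Δ` and every neighbourhood is sparse: at most
   `(1 - δ') Δ²` ordered adjacent pairs.
2. (`GoalHALF`, `GoalSPLIT`) Split the units into `K` parts in a cycle; degrees to near parts at most `D`, `K D ≤ (1 + η) Δ`,
   `D` bounded, own neighbourhoods still sparse.
3. Random partial colouring of the parts with `q = D + J` colours (`Defs.lean`). By sparsity many colours are used twice
   in every neighbourhood (`GoalGP`), so every vertex sees few colours (`GoalMISS`) and almost all vertices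
   are coloured (`GoalCOLP`).
4. Only `qm = q - ε D` colours (main colours) are used for the classes. The block process (`GoalREC`)
   schedules them at times `0, ..., J - 1`.
5. The other vertices (`Ms`) are inserted into classes where they have no neighbours and no neighbours in
   the two adjacent classes: some of them at random times (`Ins`, `GoalIN`), the others
   greedily (`GoalGRE`). They make the blocks larger by a factor `1 + γ` (with `γ` much larger than all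
   the losses).
6. (`GoalHOE`, `GoalLL2`, `GoalCOREB`) Concentration and the local lemma. Then `goalASM`.
-/

namespace Pool.Agent.Helper63.Sey3

open Pool.Agent.Helper41.Girth4 (Pr)
open Pool.Agent.Helper8.Sey (near NearBd)

/-! ### General lemmas on product spaces -/

/-- PACKET PICK (the first colour of a random list outside `X` is uniform).

PROOF. Let `M` be the number of `b` with `¬ X b`, `M ≥ m ≥ 1`. `pick π X` is never in `X` (the set in the definition is nonempty). For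
`a, b ∉ X` composition with `swap a b` is a bijection of the permutations, and
`pick (swap a b * π) X = swap a b (pick π X)` (see `Pool.Agent.Helper73.Sey.pick_act`); so all `a ∉ X` have the same
probability, which is `1 / M ≤ 1 / m`. Sum over `a ∈ A`. -/
def GoalPICK : Prop :=
  ∀ (q : ℕ) [NeZero q] (X : Fin q → Prop) (A : Finset (Fin q)) (m : ℕ), 1 ≤ m →
    m ≤ Nat.card {b // ¬ X b} →
    Pr (fun π : Equiv.Perm (Fin q) => Pool.Agent.Helper8.Sey.Sys.pick π X ∈ A) ≤ (A.card : ℝ) / m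

/-- PACKET MCD (bounded differences).

PROOF. For a finite set `S` of coordinates (induction on `|S|`) show `E exp (t (F - E_S F)) ≤ exp (t² c² |S| / 2)`-type bounds; e.g.
by induction on the number of coordinates: averaging `f` over one coordinate `i` gives `g` with the same bounded
difference property for the other coordinates; for fixed other coordinates `X = f - g` has mean `0`
and `|X| ≤ c`, so its average of `exp (t X)` is at most `cosh (t c) ≤ exp (t² c² / 2)` (convexity,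
`Real.cosh_le_exp_half_sq`; or `X` has mean zero and values in `[-c, c]`, Hoeffding). So
`E exp (- t (f - E f)) ≤ exp (t² c² n / 2)`, `n = |I|`, and Markov with `t = lam / (c² n)` gives `exp (- lam² / (2 c² n))`. If `c = 0` or
`n = 0` the right side is `1`. -/
def GoalMCD : Prop :=
  ∀ (I L : Type) [Fintype I] [DecidableEq I] [Fintype L] [Nonempty L] (f : (I → L) → ℝ)
    (c lam : ℝ), 0 ≤ c → 0 ≤ lam →
    (∀ ω i l, |f (Function.update ω i l) - f ω| ≤ c) →
    Pr (fun ω : I → L => f ω ≤ (∑ ω', f ω') / Fintype.card (I → L) - lam) ≤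
      Real.exp (-(lam ^ 2 / (2 * c ^ 2 * Fintype.card I)))

/-- PACKET NEG (many colours are not hit).

PROOF. CLAIM: for `x : Col → ℝ` with values in `[0, 1]` the average of
`∏_{a ∈ C} (if ∃ i ∈ X a, χ (ω i) = some a then 1 else x a)` is at most
`∏_{a ∈ C} (1 - (1 - ρ)^|X a| (1 - x a))`. Induction on the number of the indices (or on a finset of indices containing all `X a`): fix one index
`i`, let `z a = 1 - (1 - ρ)^|X a \ {i}| (1 - x a)`. Given the label `l` of `i` the claim for the other indices (with `x b`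
replaced by `1` if `χ l = some b` and `i ∈ X b`) bounds the average over the other labels by
`∏ (if hit then 1 else z a)`; averaging over `l`, with `C_i = {a ∈ C : i ∈ X a}`: it is
`∏_{a ∉ C_i} z a` times `G(C_i)`, `G(S) = ∏_S z + ρ ∑_{b ∈ S} (1 - z b) ∏_{S \ b} z`. And `G(S) ≤ ∏_S (z a + ρ (1 - z a))` by
induction on `S`: `G(S ∪ c) = z c G(S) + ρ (1 - z c) ∏_S z ≤ (z c + ρ (1 - z c)) G(S)`. Finally `z a + ρ (1 - z a) = 1 - (1 - ρ)^|X a| (1 - x a)` for
`a ∈ C_i`.
With `x = 1/2`: the average of `2^(- unhit)` is at most `(1 - (1 - ρ)^m / 2)^|C|`; Markov. -/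
def GoalNEG : Prop :=
  ∀ (I L Col : Type) [Fintype I] [Fintype L] [Nonempty L] (χ : L → Option Col) (C : Finset Col)
    (X : Col → Finset I) (ρ : ℝ) (m y : ℕ), 0 ≤ ρ → ρ ≤ 1 →
    (∀ a ∈ C, Pr (fun l => χ l = some a) = ρ) → (∀ a ∈ C, (X a).card ≤ m) →
    Pr (fun ω : I → L => Nat.card {a // a ∈ C ∧ ∀ i ∈ X a, χ (ω i) ≠ some a} ≤ y) ≤
      2 ^ y * (1 - (1 - ρ) ^ m / 2) ^ C.card

/-- PACKET SEQ (many bins are not hit; adaptive version).

PROOF. CLAIM: for `0 ≤ t ≤ 1` the average of `exp (- t X_S)`, `X_S` = number of the bins which are not hit by `S`, is at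
most `exp (- t (1 - 2 ν)^|S| B)`, `B` = number of bins. Induction on `|S|`; let `m` be the element of `S` with maximal
rank, `S' = S \ {m}`. `X_S'` does not depend on the label of `m` (locality; `rk i < rk m` for `i ∈ S'`). `X_S ≥ X_S' - 1`, and `X_S = X_S'`
unless `m` hits one of the `X_S'` bins not hit by `S'`, which has probability at most `ν X_S'` given the other
labels. So the average over the label of `m` is at most `exp (- t X_S') (1 + ν X_S' (exp t - 1)) ≤
exp (- t X_S' + 2 ν t X_S')` (`exp t - 1 ≤ 2 t` for `0 ≤ t ≤ 1`). Now the claim for `S'` and `t (1 - 2 ν)` (the locality condition for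
`S'` follows from that for `S`). Then `t = 1`, `(1 - 2 ν)^|S| ≥ (1 - 2 ν)^d ≥ exp (- 4 ν d)` (`1 - x ≥ exp (- 2 x)` for `0 ≤ x ≤ 1/2`) and Markov. -/
def GoalSEQ : Prop :=
  ∀ (I L Bn : Type) [Fintype I] [DecidableEq I] [Fintype L] [Nonempty L] [Fintype Bn]
    (S : Finset I) (rk : I → ℕ) (hit : I → (I → L) → Bn → Prop) (ν : ℝ) (d : ℕ),
    S.card ≤ d → Set.InjOn rk (S : Set I) → 0 ≤ ν → ν ≤ 1 / 4 →
    (∀ i ∈ S, ∀ ω ω' : I → L, (∀ j, (j ∈ S → rk j ≤ rk i) → ω j = ω' j) →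
      ∀ b, hit i ω b → hit i ω' b) →
    (∀ i ∈ S, ∀ ω b b', hit i ω b → hit i ω b' → b = b') →
    (∀ i ∈ S, ∀ ω b, Pr (fun l : L => hit i (Function.update ω i l) b) ≤ ν) →
    ∀ y : ℝ, Pr (fun ω : I → L => (Nat.card {b // ∀ i ∈ S, ¬ hit i ω b} : ℝ) ≤ y) ≤
      Real.exp (y - Real.exp (-(4 * ν * d)) * Fintype.card Bn)

/-- PACKET SEU (few events occur; adaptive version).

PROOF. As `GoalSEQ`: the average of `exp (number of i ∈ S with hit)` is at most `(1 + (exp 1 - 1) ν)^|S| ≤ exp (2 ν d)`, by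
induction on `|S|`, removing the element `m` of maximal rank: for `i ≠ m` the event does not depend
on the label of `m`, and given the other labels the event of `m` has probability `≤ ν`. Markov. -/
def GoalSEU : Prop :=
  ∀ (I L : Type) [Fintype I] [DecidableEq I] [Fintype L] [Nonempty L]
    (S : Finset I) (rk : I → ℕ) (hit : I → (I → L) → Prop) (ν : ℝ) (d : ℕ),
    S.card ≤ d → Set.InjOn rk (S : Set I) → 0 ≤ ν →
    (∀ i ∈ S, ∀ ω ω' : I → L, (∀ j, (j ∈ S → rk j ≤ rk i) → ω j = ω' j) → hit i ω → hit i ω') →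
    (∀ i ∈ S, ∀ ω, Pr (fun l : L => hit i (Function.update ω i l)) ≤ ν) →
    ∀ y : ℝ, Pr (fun ω : I → L => y ≤ (Nat.card {i // i ∈ S ∧ hit i ω} : ℝ)) ≤
      Real.exp (2 * ν * d - y)

/-- PACKET SEL (no event occurs; adaptive version).

PROOF. As `GoalSEU`: the probability that no `i ∈ S` has `hit` is at least `(1 - ν)^|S|`, by induction on `|S|`,
removing the element of maximal rank. -/
def GoalSEL : Prop :=
  ∀ (I L : Type) [Fintype I] [DecidableEq I] [Fintype L] [Nonempty L]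
    (S : Finset I) (rk : I → ℕ) (hit : I → (I → L) → Prop) (ν : ℝ) (d : ℕ),
    S.card ≤ d → Set.InjOn rk (S : Set I) → 0 ≤ ν → ν ≤ 1 →
    (∀ i ∈ S, ∀ ω ω' : I → L, (∀ j, (j ∈ S → rk j ≤ rk i) → ω j = ω' j) → hit i ω → hit i ω') →
    (∀ i ∈ S, ∀ ω, Pr (fun l : L => hit i (Function.update ω i l)) ≤ ν) →
    (1 - ν) ^ d ≤ Pr (fun ω : I → L => ∀ i ∈ S, ¬ hit i ω)

open Classical in
/-- PACKET HOE (exponential concentration for locally dependent events).

PROOF. The conflict graph on `S` (`s ~ t` if `s ≠ t` and the regions meet) has maximal degree at most `R - 1`, so `S` is the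
union of `R` sets `S_1, ..., S_R` without conflicts (greedy). On each `S_i` the events are mutually
independent (disjoint regions: `Pool.Agent.Helper51.Girth4.Pr_indep`, induction). Let `X_i = ∑_{s ∈ S_i} wt s [A s]`, `W = ∑_S wt ≥ |S|`. If
`∑ X_i ≤ (1 - δ) p W ≤ ∑ E X_i - δ p W` then `X_i ≤ E X_i - δ p W / R` for some `i`, which by Hoeffding (independent
variables with values in `[0, 2]`: `E exp (- t (Y - E Y)) ≤ exp (t² / 2)`) has probability at most
`exp (- (δ p W / R)² / (2 |S_i|)) ≤ exp (- δ² p² |S| / (2 R²))`. -/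
def GoalHOE : Prop :=
  ∀ (V L : Type) [Fintype V] [Fintype L] [Nonempty L] (S : Finset V) (A : V → (V → L) → Prop)
    (Reg : V → Set V) (R : ℕ) (wt : V → ℕ) (p δ : ℝ), S.Nonempty → 1 ≤ R → 0 ≤ p → 0 ≤ δ →
    (∀ v, 1 ≤ wt v ∧ wt v ≤ 2) →
    (∀ s ω ω', (∀ i ∈ Reg s, ω i = ω' i) → A s ω → A s ω') →
    (∀ s ∈ S, Nat.card {t // ¬ Disjoint (Reg s) (Reg t)} ≤ R) →
    (∀ s ∈ S, p ≤ Pr (A s)) →
    Pr (fun ω => (∑ s ∈ S.filter (fun s => A s ω), (wt s : ℝ)) ≤ (1 - δ) * p * ∑ s ∈ S, (wt s : ℝ))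
      ≤ R * Real.exp (-(δ ^ 2 * p ^ 2 * S.card / (2 * R ^ 2)))

/-- PACKET LL2 (local lemma with two kinds of events).

PROOF. The usual proof of the weighted local lemma (compare `Pool.Agent.Helper51.Girth4.stmtLLL`) for the index type
`V ⊕ Fin K` with weights `4 p` and `1 / 20`: by induction on `|T|`: `0 < Pr (∀ T, ¬ A)` and
`Pr (A j ∧ ∀ T, ¬ A) ≤ x_j Pr (∀ T, ¬ A)`, using for `T1 = T ∩ Γ(j)`, `T2 = T \ Γ(j)`:
`Pr (A j ∧ ∀ T) ≤ Pr (A j) Pr (∀ T2)`, `Pr (∀ T) ≥ Pr (∀ T2) ∏_{i ∈ T1} (1 - x_i)`. Conditions: first kind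
`p ≤ 4 p (1 - 4 p)^R (19/20)^3`, as `(1 - 4 p)^R ≥ 1 - 4 p R ≥ 1/2`; second kind `p' ≤ (1/20) (1 - 4 p)^m (19/20)^5`, as
`1 - 4 p ≥ exp (- 8 p)` (`4 p ≤ 1/2`) and `20 / (19/20)^5 ≤ 30`. -/
def GoalLL2 : Prop :=
  ∀ (V I L : Type) [Fintype V] [Fintype I] [Fintype L] [Nonempty L] (K : ℕ) (S1 : V → Set I)
    (S2 : Fin K → Set I) (A1 : V → (I → L) → Prop) (A2 : Fin K → (I → L) → Prop) (p p' : ℝ)
    (R m : ℕ),
    (∀ v ω ω', (∀ i ∈ S1 v, ω i = ω' i) → A1 v ω → A1 v ω') →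
    (∀ l ω ω', (∀ i ∈ S2 l, ω i = ω' i) → A2 l ω → A2 l ω') →
    0 ≤ p → 0 ≤ p' → 1 ≤ R → 8 * p * R ≤ 1 → (∀ v, Pr (A1 v) ≤ p) → (∀ l, Pr (A2 l) ≤ p') →
    (∀ v, Nat.card {u // ¬ Disjoint (S1 v) (S1 u)} ≤ R) →
    (∀ v, Nat.card {l // ¬ Disjoint (S1 v) (S2 l)} ≤ 3) →
    (∀ l, Nat.card {v // ¬ Disjoint (S2 l) (S1 v)} ≤ m) →
    (∀ l, Nat.card {l' // ¬ Disjoint (S2 l) (S2 l')} ≤ 5) →
    30 * p' * Real.exp (8 * p * m) ≤ 1 →
    ∃ ω, (∀ v, ¬ A1 v ω) ∧ ∀ l, ¬ A2 l ω

/-! ### The colouring -/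

/-- PACKET RES (resampling the priority lists).

PROOF. `P.Om` is in bijection with `(V → rest) × (V → Perm)`, so `Pr E` is the average over `ω` of
`Pr (fun π => E (setpm ω π))` (`setpm (setpm ω π) π' = setpm ω π'`, and every `ω` is `setpm ω (pm ∘ ω)`). By hypothesis
`G (setpm ω π) ↔ G ω`. -/
def GoalRES : Prop :=
  ∀ (V : Type) [Fintype V] (P : Sy V) (G E : P.Om → Prop) (p : ℝ), 0 ≤ p →
    (∀ ω π, G ω → G (P.setpm ω π)) →
    ((∀ ω, G ω → Pr (fun π : V → Equiv.Perm (Fin P.q) => E (P.setpm ω π)) ≤ p) →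
      Pr (fun ω : P.Om => G ω ∧ E ω) ≤ p) ∧
    ((∀ ω, G ω → p ≤ Pr (fun π : V → Equiv.Perm (Fin P.q) => E (P.setpm ω π))) →
      p * Pr G ≤ Pr (fun ω : P.Om => G ω ∧ E ω))

/-- PACKET STL (the state before round `i` depends only on the lists of the vertices with earlier rounds).

PROOF. Induction on `i`. `c0` does not use the lists. In `stp _ i c` only the proposals of vertices with `rd = i` are
used. The second part: `pk` uses the list of `v` and the state. -/
def GoalSTL : Prop :=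
  ∀ (V : Type) (P : Sy V) (ω : P.Om) (π π' : V → Equiv.Perm (Fin P.q)) (i : ℕ),
    (∀ x, P.rd (ω x) < i → π x = π' x) →
    P.st (P.setpm ω π) i = P.st (P.setpm ω π') i ∧
    ∀ v, π v = π' v → P.pk (P.setpm ω π) (P.st (P.setpm ω π) i) v =
      P.pk (P.setpm ω π') (P.st (P.setpm ω π') i) v

/-- PACKET MISS (good vertices see few colours).

PROOF. Every used colour `a` has an own neighbour `u_a` with `st ω i u_a = some a`. Every colour `a` counted by `rp` has two own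
neighbours with colour `a` after round 0, hence also in `st ω i` (`st_eq_some`), so at least one `u'_a ≠ u_a`; all these own
neighbours are different. So `#used + rp ≤ dg v`. -/
def GoalMISS : Prop :=
  ∀ (V : Type) [Fintype V] (P : Sy V) (κ : ℕ) (ω : P.Om) (v : V) (i : ℕ), P.Gd κ ω v →
    Nat.card {a // P.used (P.st ω i) v a} + κ ≤ P.D

/-- PACKET PROP (the colouring is proper inside the parts).

PROOF. Let `Own u v`, `col u = col v = some a`. Show by induction on `i`: not both `st i u = some a` and `st i v = some a`. `i = 0`: the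
condition in `c0`. Step: if `u` is coloured (`a`) before round `i` and `v` gets the colour `a` in round `i`,
then `used (st i) v a`, contradiction to `stp_some`; symmetric; if both get `a` in round `i`: one of
them has smaller `idx` (`hidx`), contradiction to `stp_some` for the other one. -/
def GoalPROP : Prop :=
  ∀ (V : Type) (P : Sy V) (ω : P.Om) (u v : V) (a : Fin P.q), P.Own u v →
    P.col ω u = some a → P.col ω v ≠ some a

/-- PACKET EX (exchangeability of the colours).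

PROOF. As `Pool/Agent/Helper73/Sey/EXCH.lean`. Let `l = part v`, `s = swap b b'`; `act ω` changes, for the vertices of part `l`, the
proposal `co` to `s co` and the list `pm` to `s * pm`, everything else is the same. It is a bijection of `Om`. By induction
over the rounds `st (act ω) i w = (st ω i w).map s` for `w` in part `l`, and `st (act ω) i w = st ω i w` otherwise (`pick_act`; the conditions are
equalities of proposals). So `Agree W ω (act ω)`: for `g ∈ W` and `w` in part `l`, `isC ω w g` means `col ω w = some a`, `a < qm`,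
`cl l a = g`, so `a ≠ b, b'`; hence also `isC (act ω) w g`, and conversely. So `E ω ↔ E (act ω)`, `col ω v = some b ↔ col (act ω) v = some b'`. -/
def GoalEX : Prop :=
  ∀ (V : Type) [Fintype V] (P : Sy V) (E : P.Om → Prop) (W : Finset (ZMod P.N)),
    (∀ ω ω', P.Agree W ω ω' → E ω → E ω') → ∀ (v : V) (b b' : Fin P.q),
    (∀ g ∈ W, ¬ ((b : ℕ) < P.qm ∧ P.cl (P.part v) b = g)) →
    (∀ g ∈ W, ¬ ((b' : ℕ) < P.qm ∧ P.cl (P.part v) b' = g)) →
    Pr (fun ω : P.Om => E ω ∧ P.col ω v = some b) = Pr (fun ω : P.Om => E ω ∧ P.col ω v = some b')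

/-- PACKET WIN (the block process looks only at a window of classes).

PROOF. Induction on `j`, for all `g`, `v`, as `Pool/Agent/Helper15/Sey/WIN.lean`. `Win j g ⊆ Win (j + 1) g` and
`Win j (g - 1) ⊆ Win (j + 1) g`; use `T_iff'` for the class `g` of `v` (`g ∈ Win j g`, so `isC ω' v g`). -/
def GoalWIN : Prop :=
  ∀ (V : Type) [Fintype V] (P : Sy V) (R : ℕ → V → ZMod P.N → ℕ) (j : ℕ) (g : ZMod P.N)
    (ω ω' : P.Om), P.Agree (P.Win j g) ω ω' → ∀ v, P.isC ω v g →
    (P.U R ω j v ↔ P.U R ω' j v) ∧ (P.T R ω j v ↔ P.T R ω' j v)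

/-- PACKET REC (the tuned thresholds): prove `GoalEX → GoalWIN → GoalREC`.

PROOF. As `Pool/Agent/Helper20/Sey/REC.lean`. `t = (1 - θ) / (q J)`, `e = 1 / (q L)`. By `GoalEX` with `W = ∅`, `E = True` all
`Pr (col v = some b)` are equal, so for `g = cl (part v) a`: `Pr (isC v g) = Pr (col v = some a)
= (1 - Pr (col v = none)) / q` is between `(1 - θ) / q` and `1 / q`.
By induction on `j0 ≤ J`: there is `R` such that the bounds hold for all `j < j0`. (`proc R ω j` depends only on `R i` with `i ≤ j`,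
so for the step only `R j0` is changed, and `U j0`, `Fo j0` do not depend on `R j0`.) Let `j = j0 < J`, `g = cl (part v) a`,
`A = Pr (U j v ∧ Fo j v g ∧ isC v g)`, `B = Pr (U j v ∧ ¬ Fo j v g ∧ isC v g)`.
(1) `A ≤ t`. For `j = 0`, `Fo` is `False`. For `j = i + 1`: there is `u` with `H.Adj u v`, `isC u (g - 1)`, `T i u`; by `cand` such `u` are in
one part `m` near to `part v`, so there are at most `D` candidates (`hnear`), and `g - 1 = cl m b`. For each of
them let `E ω` be `isC u (g - 1) ∧ T i u`; by `GoalWIN` it is invariant under `Agree W`, `W = Win i (g - 1)`, `|W| ≤ i + 1 ≤ J`,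
`g ∉ W` (`not_mem_Win`). By `GoalEX` `Pr (E ∧ col v = some b') = Pr (E ∧ col v = some a)` for all colours `b'` except at most `|W| ≤ J`
many, i.e. for at least `q - J ≥ D` colours; so `D Pr (E ∧ isC v g) ≤ Pr E ≤ t` (the bound for `i < j`). Sum over the
candidates: `A ≤ t`.
(2) `A + B = Pr (U j v ∧ isC v g) = Pr (isC v g) - ∑_{i < j} Pr (T i v ∧ isC v g) ≥ (1 - θ) / q - j t ≥ t`.
(3) `T j v ∧ isC v g ↔ U j v ∧ isC v g ∧ (Fo j v g ∨ coin j < R j v g)`; the coin of time `j` of `v` is independent of `U j`, `Fo j`,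
`isC`, so `Pr (T j v ∧ isC v g) = A + B min (R j v g) L / L`. Take `R j v g = ⌊L (t - A) / B⌋` (if `B > 0`; it is `≤ L` by (2)).
Then `t - e ≤ t - B / L ≤ Pr ≤ t`, since `B ≤ 1 / q`. If `B = 0` then `A = t`. -/
def GoalREC : Prop :=
  ∀ (V : Type) [Fintype V] (P : Sy V) (θ : ℝ), 0 ≤ θ → θ < 1 →
    (∀ v, Pr (fun ω : P.Om => P.col ω v = none) ≤ θ) →
    ∃ R : ℕ → V → ZMod P.N → ℕ, ∀ j < P.J, ∀ (v : V), ∀ a < P.qm,
      (1 - θ) / ((P.q : ℝ) * P.J) - 1 / ((P.q : ℝ) * P.L) ≤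
          Pr (fun ω : P.Om => P.T R ω j v ∧ P.isC ω v (P.cl (P.part v) a)) ∧
        Pr (fun ω : P.Om => P.T R ω j v ∧ P.isC ω v (P.cl (P.part v) a)) ≤
          (1 - θ) / ((P.q : ℝ) * P.J)

/-- PACKET SM (few own neighbours with the same round): prove `GoalSEU → GoalSM`.

PROOF. `GoalSEU` with `I = V`, `S` = the own neighbours of `v` (`d = D`, `dg_le`; `rk` any enumeration, e.g. `idx`),
`hit y ω : rd (ω y) = rd (ω v)` (`v ∉ S`, so this is local), `ν = 1 / Z`. The bound for `y = 4 D / Z` is `exp (2 D / Z - 4 D / Z)`. -/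
def GoalSM : Prop :=
  ∀ (V : Type) [Fintype V] (P : Sy V) (v : V),
    Pr (fun ω : P.Om => 4 * (P.D : ℝ) / P.Z < P.sm ω v) ≤ Real.exp (-(2 * (P.D : ℝ) / P.Z))

/-- PACKET COLP (almost all vertices are coloured): prove
`GoalPICK → GoalRES → GoalSTL → GoalMISS → GoalCOLP`.

PROOF. Let `G ω`: `Gd κ ω v` and `sm ω v ≤ 4 D / Z` (it does not depend on the lists). By `GoalRES` it is enough to show
for `ω` with `G ω` that `Pr (π : col (setpm ω π) v = none) ≤ (4 D / Z) / κ`. For this fix the lists of all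
vertices except `v`. If `c0 ω v ≠ none` then `v` is coloured (`st_mono`). Let `c0 ω v = none`, `i = rd (ω v)`, `c = st (setpm ω π) i`; `c` does not
depend on `π v` (`GoalSTL`), `c v = none` (or `v` is coloured). If `col v = none` then (`stp_none`, `st_mono`) the proposal of `v` is in
`used c v`, which is impossible as at most `D - κ < q` colours are used (`GoalMISS`; `pick` is outside `X` if possible), or it is equal to the
proposal of an own neighbour `y ≠ v` with the same round, which does not depend on `π v` (`GoalSTL`): at most `sm ω v ≤ 4 D / Z` values. By `GoalPICK`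
(at least `q - (D - κ) ≥ κ` colours are not used) the probability is at most `(4 D / Z) / κ`. -/
def GoalCOLP : Prop :=
  ∀ (V : Type) [Fintype V] (P : Sy V) (κ : ℕ), 1 ≤ κ → ∀ v : V,
    Pr (fun ω : P.Om => P.col ω v = none) ≤ Pr (fun ω : P.Om => ¬ P.Gd κ ω v) +
      Pr (fun ω : P.Om => 4 * (P.D : ℝ) / P.Z < P.sm ω v) + (4 * (P.D : ℝ) / P.Z) / κ

/-- PACKET GP (vertices with sparse neighbourhood are good): prove `GoalMCD → GoalNEG → GoalGP`.

PROOF. `c = δ² / 10^6`, `D0` large. Let `d = dg v`. If `d ≤ (1 - δ/4) D` then `Gd` always holds since `κ ≤ c D ≤ (δ/4) D`. Let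
`d > (1 - δ/4) D`. The number of unordered pairs of different nonadjacent own neighbours of `v` is at least
`(d (d - 1) - (1 - δ) D²) / 2 ≥ (δ/6) D²`. Only the labels (al, co) are used. Let `F1` = number of colours `a` such that exactly two own neighbours
`u ≠ u'` of `v` have `al` and `co = a`, and these two are nonadjacent. Expectation:
`E F1 ≥ q (δ/6) D² (1/(2q))² (1 - 1/(2q))^D ≥ (δ/48) D²/q ≥ (δ/96) D` (`(1 - 1/(2q))^D ≥ 1 - D/(2q) ≥ 1/2`, `q ≤ 2 D`). `F1` depends only on the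
labels of the `d ≤ D` own neighbours, and changes by at most `2` if one label changes: `GoalMCD` (with `I` = the own neighbours) gives
`Pr (F1 ≤ (δ/192) D) ≤ exp (- δ² D / 294912)`.
Now fix the labels of the own neighbours, `F1 ≥ (δ/192) D`; let `C` be the set of these colours, for `a ∈ C` let
`u_a, u'_a` be the two vertices, `X a` = the set of `y` which are not own neighbours of `v` but own neighbours of
`u_a` or `u'_a` (at most `2 D`). If no `y ∈ X a` has `al` and `co = a` then both keep the colour `a` in round 0 (they are nonadjacent and the only ones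
among the own neighbours of `v` with this proposal), so `a` is counted by `rp`. `GoalNEG` with `ρ = 1/(2q)`, `m = 2 D`:
`(1 - ρ)^(2 D) ≥ exp (- 4 D ρ) ≥ exp (- 2) ≥ 1/8`, so the probability that at most `y = ⌊|C|/32⌋` of the colours are not hit is at most
`2^y (15/16)^|C| ≤ exp (- |C| / 32)`. So `rp ≥ (δ/6144) D - 1 ≥ κ` except with probability `exp (- δ² D/294912) + exp (- δ D/6144)`, at most `exp (- c D)`;
and `d ≤ D`, so `Gd`. (`rp + D ≥ dg + κ`.) -/
def GoalGP : Prop :=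
  ∀ δ : ℝ, 0 < δ → δ ≤ 1 → ∃ (c : ℝ) (D0 : ℕ), 0 < c ∧
    ∀ (V : Type) [Fintype V] (P : Sy V) (κ : ℕ), D0 ≤ P.D → (κ : ℝ) ≤ c * P.D → ∀ v : V,
      (Nat.card {p : V × V // P.Own v p.1 ∧ P.Own v p.2 ∧ P.H.Adj p.1 p.2} : ℝ) ≤
        (1 - δ) * (P.D : ℝ) ^ 2 →
      Pr (fun ω : P.Om => ¬ P.Gd κ ω v) ≤ Real.exp (-(c * P.D))

/-- PACKET TM (three classes are missing with constant probability): prove
`GoalPICK → GoalSEL → GoalRES → GoalSTL → GoalMISS → GoalTM`.

PROOF. `c3 = exp (- 9) / 2 * exp (- 18 / c)`. Let `g = cl (part w) a`. The classes `g - 1`, `g`, `g + 1` lie in parts near to `part w` (`sub_part`,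
`add_part`). Let `M` be the set of the neighbours of `w` in near parts, `|M| ≤ 3 D` (`hnear`, `near_three`), and for `u ∈ M` let `B_u` be the set of the
main colours `x` with `cl (part u) x ∈ {g - 1, g, g + 1}`, `|B_u| ≤ 3` (`cl_inj`). If `col u ∉ B_u` for all `u ∈ M` then `Tm w g`.
`G ω`: for all `u ∈ M`, `Gd κ ω u` and not (`al u` and `co u ∈ B_u`). `G` does not depend on the lists. The second condition has
probability at least `(1 - 3/(2q))^(3D) ≥ exp (- 9 D / q) ≥ exp (- 9)` (independent; `GoalSEL`; `1 - x ≥ exp (- 2 x)`), the first fails with probability at most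
`3 D e0`. So `Pr G ≥ exp (- 9) / 2`. For `ω` with `G ω` apply `GoalSEL` to the lists (`I = V`, `S = M`, labels `Perm`,
`rk u = rd (ω u) * (b + 1) + idx u` with `b = ∑ idx`, or any injective function monotone in `rd`): `hit u π`: `c0 ω u = none` and the proposal of
`u` in its round, `pk (setpm ω π) (st (setpm ω π) (rd (ω u))) u`, is in `B_u`. By `GoalSTL` it depends only on
`π u` and the lists of vertices with smaller round. By `GoalMISS`, `GoalPICK` (at most `D - κ` colours are used) the conditional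
probability is at most `3 / κ`. So all are not hit with probability at least `(1 - 3/κ)^(3D) ≥ exp (- 18 D / κ) ≥ exp (- 18 / c)`; then `col u ∉ B_u` for `u ∈ M`:
`col u` is `co u` if `u` is coloured in round 0, and otherwise the proposal in its round. `GoalRES`. -/
def GoalTM : Prop :=
  ∀ c : ℝ, 0 < c → ∃ (c3 : ℝ) (D0 : ℕ), 0 < c3 ∧
    ∀ (V : Type) [Fintype V] (P : Sy V) (κ : ℕ) (e0 : ℝ), D0 ≤ P.D → c * P.D ≤ (κ : ℝ) →
      0 ≤ e0 → 3 * (P.D : ℝ) * e0 ≤ Real.exp (-9) / 2 →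
      (∀ u, Pr (fun ω : P.Om => ¬ P.Gd κ ω u) ≤ e0) →
      ∀ w : V, ∀ a < P.qm, c3 ≤ Pr (fun ω : P.Om => P.Tm ω w (P.cl (P.part w) a))

/-- PACKET IN (the random insertion): prove `GoalEX → GoalIN`.

PROOF. Let `l = part w`, `g = cl l a`, `W = {g - 1, g, g + 1}`. The event `Tm w g` is invariant under `Agree W`. Let `To` be the set of the main
colours `x` with `cl l x ∈ W`, `|To| ≤ 3`. By `GoalEX` `Pr (Tm ∧ col w = some b)` is the same for all `b ∉ To`, in particular for the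
`q - qm` colours `b ≥ qm`. Their sum over `b ∉ To` is at least
`Pr Tm - Pr (col w = none) - ∑_{b ∈ To} Pr (col w = some b) ≥ c3 - θ - 3/q ≥ c3 / 2` (`GoalEX` with `W = ∅`: all `Pr (col w = some b)` are equal, so
`≤ 1/q`). So `Pr (Tm ∧ Ms) ≥ ∑_{b ≥ qm} ≥ ((q - qm) / q) c3 / 2`. The rest of `Ins` concerns only the proposals for the insertion,
which are independent of the colouring: `pc (ω w) = a`, `pt (ω w) = j` has probability `1 / (qm J)`, and independently for each neighbour `u` of `w` in a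
near part (at most `3 D`) at most three values of `pc (ω u)` are excluded, so (`6 ≤ qm`, `D ≤ 2 qm`) the probability is at least `(1 - 3/qm)^(3D) ≥
exp (- 18 D / qm) ≥ exp (- 36)`; for the other neighbours nothing is excluded. And `qm ≤ q`. -/
def GoalIN : Prop :=
  ∀ (V : Type) [Fintype V] (P : Sy V) (θ c3 : ℝ),
    (∀ v, Pr (fun ω : P.Om => P.col ω v = none) ≤ θ) →
    (∀ w : V, ∀ a < P.qm, c3 ≤ Pr (fun ω : P.Om => P.Tm ω w (P.cl (P.part w) a))) →
    θ + 3 / (P.q : ℝ) ≤ c3 / 2 → 0 ≤ c3 → ∀ w : V, ∀ a < P.qm, ∀ j < P.J,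
      (((P.q : ℝ) - P.qm) / P.q) * (c3 / 2) * Real.exp (-36) / ((P.q : ℝ) * P.J) ≤
        Pr (fun ω : P.Om => P.Ins ω w a j)

/-- PACKET V1 (many free inner colours): prove
`GoalPICK → GoalSEQ → GoalRES → GoalSTL → GoalMISS → GoalV1`.

PROOF. `c1 = exp (- 12 / c - 6) / 100`, `D0` large. Bins: `b < B = qm / 3`, bin `b` = `{3 b, 3 b + 1, 3 b + 2}`; if no own neighbour of `w` has a colour
in bin `b` then `Fa ω w (3 b + 1)`. `B ≥ D / 7`. Round 0: `GoalSEQ` with `S` = own neighbours of `w`, `d = D`, `hit u ω b : al (ω u)` and `co (ω u)` in bin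
`b`, `ν = 3 / (2 q)`, `4 ν d ≤ 6`: with probability at least `1 - exp (y0 - exp (- 6) B)`, `y0 = exp (- 6) B / 2`, at least `y0` bins are not hit. `G ω`: this, and
`Gd κ ω u` for all own neighbours `u` of `w`; it does not depend on the lists. For `ω` with `G ω` apply `GoalSEQ` to the lists (labels `Perm`, `Bn` = the bins not
hit in round 0, `rk` as in TM): `hit u π b`: `c0 ω u = none` and the proposal of `u` in its round is in bin `b`; `ν = 3 / κ`
(`GoalMISS`, `GoalPICK`), `4 ν d ≤ 12 / c`. So with probability at least `1 - exp (- y1)`, `y1 = exp (- 12 / c) y0 / 2`, more than `y1` bins are not hit at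
all, and `y1 ≥ 2 c1 D` (`D` large). `GoalRES`. The failure probability is at most `exp (- y0) + exp (- y1) ≤ exp (- c1 D)`. -/
def GoalV1 : Prop :=
  ∀ c : ℝ, 0 < c → ∃ (c1 : ℝ) (D0 : ℕ), 0 < c1 ∧
    ∀ (V : Type) [Fintype V] (P : Sy V) (κ : ℕ), D0 ≤ P.D → c * P.D ≤ (κ : ℝ) → ∀ w : V,
      Pr (fun ω : P.Om => (Nat.card {a : ℕ // P.Fa ω w a} : ℝ) < c1 * P.D ∧
        ∀ u, P.Own w u → P.Gd κ ω u) ≤ Real.exp (-(c1 * P.D))

/-- PACKET V2 (few own neighbours without main colour): prove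
`GoalPICK → GoalSEU → GoalRES → GoalSTL → GoalMISS → GoalV2`.

PROOF. An own neighbour `u` of `w` with `Ms ω u` satisfies (i) `al (ω u)` and `qm ≤ co (ω u)`, or (ii) `c0 ω u = none`, and in its round `u` proposes a
colour `≥ qm`, or a used colour (impossible if `Gd κ ω u`, `1 ≤ κ`), or the same colour as an own neighbour `y` of `u` with smaller `idx`, the same round
and not coloured before. If there are at least `y` such `u` then at least `y / 2` of type (i) or at least `y / 2` of type (ii). (i): `GoalSEU` with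
`ν = (q - qm) / (2 q)`, `d = D`. (ii): `G ω`: for all own neighbours `u` of `w`, `Gd κ ω u` and `sm ω u ≤ 4 D / Z`. For `ω` with `G ω` apply `GoalSEU` to
the lists (`S` = own neighbours of `w`, `rk` injective, monotone in (rd, idx)): the event (ii) for `u` depends on the lists of vertices with smaller round, or
the same round and smaller `idx`, and on `π u` (`GoalSTL`); given the other lists, at most `(q - qm) + 4 D / Z` values of the proposal of `u` are bad, so by
`GoalMISS`, `GoalPICK` `ν = ((q - qm) + 4 D / Z) / κ`. `GoalRES`. -/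
def GoalV2 : Prop :=
  ∀ (V : Type) [Fintype V] (P : Sy V) (κ : ℕ), 1 ≤ κ → ∀ (w : V) (y : ℝ),
    Pr (fun ω : P.Om => y ≤ (Nat.card {u // P.Own w u ∧ P.Ms ω u} : ℝ) ∧
        ∀ u, P.Own w u → P.Gd κ ω u ∧ (P.sm ω u : ℝ) ≤ 4 * (P.D : ℝ) / P.Z) ≤
      Real.exp ((P.D : ℝ) * ((P.q : ℝ) - P.qm) / P.q - y / 2) +
      Real.exp (2 * (P.D : ℝ) * (((P.q : ℝ) - P.qm + 4 * (P.D : ℝ) / P.Z) / κ) - y / 2)

/-! ### Locality -/

/-- PACKET LOC (locality with respect to balls).

PROOF. As `Pool/Agent/Helper39/Sey/LOCB.lean`. `u ∼ v` means `H.Adj u v ∧ near K (part u) (part v)`; at most `3 D` such neighbours; balls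
`B_t (v)`, `|B_t (v)| ≤ (3 D + 1)^t`, `w ∈ B_t (v) ↔ v ∈ B_t (w)`. `Reg v = B_ρ (v)`, `ρ = 2 Z + J + 4`. `c0 ω v` depends on `ω` on `B_1 (v)`; `st ω (i + 1) v` depends on
`st ω i` on `B_2 (v)` and the labels on `B_2 (v)`; so `col ω v`, `isC ω v g` depend on `ω` on `B_(2Z+1) (v)`; `T R ω j v` on
`B_(2Z+1+j) (v)` (a vertex `u` with `H.Adj u v`, `isC u (g - 1)`, `isC v g` is near: `near_of_isC`); `Ins ω v a j` on `B_(2Z+2) (v)`: for a neighbour `u` of `v` which is
not near, `isC ω u g'` and `cl (part u) (pc (ω u)) = g'` are false for `g' ∈ {g - 1, g, g + 1}` (`sub_part`, `add_part`, `cl_inj`; if `a ≥ qm` then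
`Ins` is false as `pc < qm`). If `B_ρ (v)` and `B_ρ (t)` intersect then `t ∈ B_(2ρ) (v)`. -/
def GoalLOC : Prop :=
  ∀ (V : Type) [Fintype V] (P : Sy V) (R : ℕ → V → ZMod P.N → ℕ), ∃ Reg : V → Set V,
    (∀ v (ω ω' : P.Om), (∀ w ∈ Reg v, ω w = ω' w) →
      (∀ g, P.isC ω v g → P.isC ω' v g) ∧ (∀ j < P.J, P.T R ω j v → P.T R ω' j v) ∧
      ∀ a j, P.Ins ω v a j → P.Ins ω' v a j) ∧
    ∀ v, Nat.card {t // ¬ Disjoint (Reg v) (Reg t)} ≤ (3 * P.D + 1) ^ (2 * (2 * P.Z + P.J + 4))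

/-- PACKET LOC2 (locality inside a part).

PROOF. As LOC, with balls for the relation `Own` only (at most `D` neighbours); `Reg v` = ball of radius `2 Z + 3`, contained in
the part of `v`; the colours of the own neighbours of `v` depend on the labels in this ball. -/
def GoalLOC2 : Prop :=
  ∀ (V : Type) [Fintype V] (P : Sy V), ∃ Reg : V → Set V,
    (∀ v, ∀ x ∈ Reg v, P.part x = P.part v) ∧
    (∀ v (ω ω' : P.Om), (∀ w ∈ Reg v, ω w = ω' w) → ∀ u, P.Own v u → P.col ω u = P.col ω' u) ∧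
    ∀ v, Nat.card {t // ¬ Disjoint (Reg v) (Reg t)} ≤ (3 * P.D + 1) ^ (2 * (2 * P.Z + 4))

/-- PACKET LOCP (locality with respect to parts).

PROOF. The colours of a part depend only on the labels of this part (induction over the rounds). `isC ω v g` depends on the part of
`v`. If `part v = l`, `isC ω v g`, `j < J`: `T R ω j v` depends on the classes `g, g - 1, ..., g - j` (members and coins), by induction; since
`j < J < qm` these are classes of the part `l` or the cyclically previous part (`sub_part`), which is near to `l`. (One can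
prove by induction on `j`: for all `t` with `t + j ≤ qm` and all `v` with `isC ω v (g0 - t)`, `g0` in part `l`: `U j v`, `T j v` are the same for `ω` and `ω'`.) `Ins ω v a j`:
neighbours `u` of `v` in near parts have the same colours and labels; for the others nothing is required (see LOC). -/
def GoalLOCP : Prop :=
  ∀ (V : Type) [Fintype V] (P : Sy V) (R : ℕ → V → ZMod P.N → ℕ) (l : ℕ) (ω ω' : P.Om), l < P.K →
    (∀ w, near P.K l (P.part w) → ω w = ω' w) → ∀ v, P.part v = l →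
      (∀ g, P.isC ω v g → P.isC ω' v g) ∧ (∀ j < P.J, P.T R ω j v → P.T R ω' j v) ∧
      ∀ a j, P.Ins ω v a j → P.Ins ω' v a j

/-! ### Insertion and assembly -/

/-- PACKET GRE (deterministic insertion of the vertices without main colour): prove `GoalPROP → GoalGRE`.

PROOF. Vertices with a main colour: `C v` = the class (`isC_uniq`), `τ v = j` if `T R ω j v` for some `j < J` (`T_unique`), otherwise `J`. Vertices `v` with
`Ins ω v a j` for some (then unique) `a, j`: `C v = cl (part v) a`, `τ v = j`. Let `W'` be the set of the other vertices (they satisfy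
`Ms`). Go through `W'` in the order of `idx`; for `w ∈ W'` choose a colour `a` with `Fa ω w a` such that no own neighbour `u` of `w` with `Ms ω u` which is already placed (i.e. `u ∉ W'`,
or `u ∈ W'` earlier) has its colour in `{a - 1, a, a + 1}`. Every such `u` excludes at most three values of `a`, so a value
is left by hypothesis. `C w = cl (part w) a`, `τ w = J`.
CLAIM: if `u` satisfies `Ms`, `H.Adj u v`, then `C v ∉ {C u - 1, C u, C u + 1}`. (1) `Ins ω u a j`: if `v` has a main colour, this is `Tm`; if `Ins` holds for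
`v`, it is the last condition of `Ins ω u`; if `v ∈ W'`, `C v = cl (part v) a'`, `1 ≤ a' ≤ qm - 2`: if `part v ≠ part u` then `C v - 1, C v, C v + 1` are classes of the
part of `v` (`cl_succ`, `cl_sub`) and `C u` is not; if `part v = part u` by the choice of `a'`. (2) `u ∈ W'`: if `v` has a main colour: `Fa` (own
neighbour), or another part as before; if `Ms ω v` and `Ins` for `v`: case (1) with `u`, `v` exchanged; both in `W'`: the choice for the later one, or
different parts.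
Main - main: `C u ≠ C v` by `GoalPROP` (same part) or `cl_inj`. Arcs: `C v = C u + 1` implies that both have main colours; if `τ u = J` nothing to
show; otherwise `T R ω (τ u) u`, and `T_arc` gives `i ≤ τ u + 1` with `T R ω i v`; so `τ v ≤ τ u + 1` (if `i ≥ J` then `τ u + 1 ≥ J ≥ τ v`). -/
def GoalGRE : Prop :=
  ∀ (V : Type) [Fintype V] (P : Sy V) (R : ℕ → V → ZMod P.N → ℕ) (ω : P.Om),
    (∀ w, 3 * Nat.card {u // P.Own w u ∧ P.Ms ω u} + 1 ≤ Nat.card {a : ℕ // P.Fa ω w a}) →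
    ∃ (C : V → ZMod P.N) (τ : V → ℕ), (∀ v, τ v ≤ P.J) ∧ (∀ u v, P.H.Adj u v → C u ≠ C v) ∧
      (∀ u v, P.H.Adj u v → C v = C u + 1 → τ v ≤ τ u + 1) ∧
      (∀ v g, ∀ j < P.J, P.T R ω j v → P.isC ω v g → C v = g ∧ τ v = j) ∧
      ∀ v a j, P.Ins ω v a j → C v = P.cl (P.part v) a ∧ τ v = j

/-- PACKET COREA (choice of the constants): prove
`GoalGP → GoalCOLP → GoalSM → GoalREC → GoalTM → GoalIN → GoalV1 → GoalV2 → GoalCOREA`.

PROOF. WLOG all constants are at most `1`. `c`, from `GoalGP` for `δ`; `κ = ⌊c D⌋`, `κ ≥ (c/2) D` for large `D`. `c3` from `GoalTM` for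
`c/2`; `c1` from `GoalV1` for `c/2`. `ε = min (1/8) (c c1 / 400)`. `ε' = (ε/4) (c3/2) exp (- 36)` (a lower bound for `((q - qm)/q) (c3/2) exp (- 36)`, as
`q - qm = ⌊ε D⌋ ≥ (ε/2) D`, `q ≤ 2 D`). `γ = ε'/4`. `J ≥ 16/γ`, `L ≥ 8 J/ε'`. `θ = min (ε'/8) (c3/4)`; `Z` so large that
`8 / (Z c) ≤ θ/2` and `4/Z ≤ c c1 / 400`. `M1` large.
`Pr (¬ Gd) ≤ e0 = exp (- c D)`, `3 D e0 ≤ exp (- 9)/2`. `GoalCOLP`, `GoalSM`: `Pr (col v = none) ≤ exp (- c D) + exp (- 2 D/Z) + (4 D/Z)/κ ≤ θ`. `GoalREC` gives `R`. `GoalTM`,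
`GoalIN` (`θ + 3/q ≤ c3/2`): `Pr (Ins) ≥ ε'/(q J)`. `T ∧ isC` and `Ins` exclude each other (`isC_not_Ms`), so the probability of the
disjunction is at least `(1 - θ - J/L + ε')/(q J) ≥ (1 + 3 ε'/4)/(q J) ≥ (1 + γ)/(D J)`, since `q = D + J ≤ (1 + ε'/16) D`.
Bad vertices: with `y = c1 D / 4`: if `Nat.card Fa ≥ c1 D` and the number of own neighbours with `Ms` is `< c1 D/4` then
`3 # + 1 ≤ Nat.card Fa` (`D` large). Failure: some own neighbour is not good (`≤ D exp (- c D)`) or has `sm > 4 D/Z` (`≤ D exp (- 2 D/Z)`), or `GoalV1` (`≤ exp (- c1 D)`),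
or `GoalV2`: `exp (ε D - c1 D/8) + exp (2 D (ε + 4/Z)/(c/2) - c1 D/8) ≤ 2 exp (- c1 D/16)` (`(q - qm)/q ≤ ε`, `κ ≥ (c/2) D`, `4 (ε + 4/Z)/c ≤ c1/50`...). The sum is at most
`exp (- c8 D)` for a suitable `c8 > 0` and `D ≥ M1`. -/
def GoalCOREA : Prop :=
  ∀ δ : ℝ, 0 < δ → δ ≤ 1 → ∃ (γ c8 ε : ℝ) (J L Z M1 : ℕ), 0 < γ ∧ γ ≤ 1 ∧ 0 < c8 ∧ 0 < ε ∧
    ε ≤ 1 / 8 ∧ 16 ≤ γ * J ∧ 1 ≤ L ∧ 1 ≤ Z ∧
    ∀ (V : Type) [Fintype V] (P : Sy V), M1 ≤ P.D → P.J = J → P.L = L → P.Z = Z →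
      P.q = P.D + J → P.qm = P.q - ⌊ε * P.D⌋₊ →
      (∀ v, (Nat.card {p : V × V // P.Own v p.1 ∧ P.Own v p.2 ∧ P.H.Adj p.1 p.2} : ℝ) ≤
        (1 - δ) * (P.D : ℝ) ^ 2) →
      ∃ R : ℕ → V → ZMod P.N → ℕ,
        (∀ w, Pr (fun ω : P.Om => ¬ (3 * Nat.card {u // P.Own w u ∧ P.Ms ω u} + 1 ≤
          Nat.card {a : ℕ // P.Fa ω w a})) ≤ Real.exp (-(c8 * P.D))) ∧
        ∀ v : V, ∀ a < P.qm, ∀ j < P.J, (1 + γ) / ((P.D : ℝ) * P.J) ≤
          Pr (fun ω : P.Om => (P.T R ω j v ∧ P.isC ω v (P.cl (P.part v) a)) ∨ P.Ins ω v a j)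

open Classical in
/-- The output of the core: the classes and times for the assembly. -/
def Out {V : Type} [Fintype V] (H : SimpleGraph V) (wt : V → ℕ) (x : ℝ) : Prop :=
  ∃ (N J m0 : ℕ) (C : V → ZMod N) (τ : V → ℕ), 2 ≤ N ∧ 2 ≤ J ∧ (∀ v, τ v ≤ J) ∧
    (∀ u v, H.Adj u v → C u ≠ C v) ∧ (∀ u v, H.Adj u v → C v = C u + 1 → τ v ≤ τ u + 1) ∧
    (∀ g : ZMod N, ∀ j < J, m0 ≤ ∑ v ∈ Finset.univ.filter (fun v => C v = g ∧ τ v = j), wt v) ∧
    x ≤ ((J - 2 : ℕ) : ℝ) * m0

open Classical in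
/-- PACKET COREB (the core): prove
`GoalCOREA → GoalLOC → GoalLOC2 → GoalLOCP → GoalHOE → GoalLL2 → GoalGRE → GoalCORE`.

PROOF. Let `γ0, c8, ε, J, L, Z, M1'` be as in `GoalCOREA`; the `γ` of this goal is `γ0 / 2`. Let `D ≥ M1`, `q = D + J`, `qm = q - ⌊ε D⌋`, and let `P` be the system
(`idx` from `Fintype.equivFin`); `δ1 = γ0/8`, `p = (1 + γ0)/(D J)`, `Rr = (3 D + 1)^(2 (2 Z + J + 4))`, `pv = exp (- c8 D)`. For `D ≥ M1`: `8 pv Rr ≤ 1` and
`384 pv Rr² ≤ δ1² p²`. `m0 = ⌈(1 - δ1) p s⌉₊`. Events of the first kind: `A1 w ω`: `¬ (3 # + 1 ≤ # Fa)`, region `Reg` from `GoalLOC2` (`Ms ω u`, `Fa ω w a` depend on the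
colours of own neighbours), `Pr ≤ pv`. Second kind, for a part `l`: `A2 l ω`: for some `a < qm`, `j < J` the sum of `wt v` over the `v` in part `l` with
(`T R ω j v ∧ isC ω v (cl l a)`) ∨ `Ins ω v a j` is at most `(1 - δ1) p` times the weight of the part. Region: the labels of the parts near to `l` (`GoalLOCP`). By `GoalHOE` (`S` = the part, `GoalLOC`) and a union bound
`Pr (A2 l) ≤ p' = qm J Rr exp (- δ1² p² (s/2) / (2 Rr²))` (the part has at least `s/2` and at most `2 s` vertices, as the weights are `1` or `2` and the weight of a part is between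
`s` and `2 s`). `GoalLL2` with `R = Rr`, `m = 6 s`: the region of `A1 w` is in the part of `w`, so it meets the regions of at most three parts, and
the region of `A2 l` meets at most `3 (2 s)` regions of the first kind and at most `5` of the second kind. `30 p' exp (48 pv s) ≤ 30 qm J Rr exp (- δ1² p² s/(8 Rr²)) ≤ 1` for `s ≥ N0`. So there is `ω`
without bad events. `GoalGRE` gives `C`, `τ`. Every `g : ZMod N` is `cl l a` (`cl_surj`), and for `j < J` the block (g, j) contains all `v` of part `l` with the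
event for (a, j), so its weight is larger than `(1 - δ1) p s`, hence at least `m0`. `(J - 2) m0 ≥ (1 - 2/J) (1 - γ0/8) (1 + γ0) s / D ≥ (1 + γ0/2) s/D` as `2/J ≤ γ0/8`. -/
def GoalCORE : Prop :=
  ∀ δ : ℝ, 0 < δ → δ ≤ 1 → ∃ (γ : ℝ) (M1 : ℕ), 0 < γ ∧ ∀ D : ℕ, M1 ≤ D → ∃ N0 : ℕ,
    ∀ (V : Type) [Fintype V] (H : SimpleGraph V) (K : ℕ) (part : V → ℕ) (wt : V → ℕ) (s : ℕ),
      1 ≤ K → NearBd H K part D →
      (∀ v, (Nat.card {p : V × V // (H.Adj v p.1 ∧ part p.1 = part v) ∧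
        (H.Adj v p.2 ∧ part p.2 = part v) ∧ H.Adj p.1 p.2} : ℝ) ≤ (1 - δ) * (D : ℝ) ^ 2) →
      N0 ≤ s → (∀ v, 1 ≤ wt v ∧ wt v ≤ 2) →
      (∀ m < K, s ≤ ∑ v ∈ Finset.univ.filter (fun v => part v = m), wt v ∧
        ∑ v ∈ Finset.univ.filter (fun v => part v = m), wt v ≤ 2 * s) →
      Out H wt ((1 + γ) * s / D)

/-! ### Splitting -/

/-- PACKET HALF (one halving step): prove `GoalMCD → GoalHALF`.

PROOF. As `Pool/Agent/Helper48/Sey/HALF.lean` (`Pool.Agent.Helper8.Sey.GoalHALF`). Every set `{v : part v = m, cc v = c}` gets an involution `μ` with at most one fixed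
point; `rep v ∈ {v, μ v}`, `rep (μ v) = rep v`; for `ω : V → Bool`, `side v = ω (rep v)` if `v = rep v`, `!ω (rep v)` otherwise; `part' v = 2 part v + [side v]`. So the sizes are as required.
Bad events: (a) for `v` and `m` near to `part v`: more than `D'` of the neighbours of `v` in the part `m` have the same side; probability at most
`2 exp (- 2 (D' - D/2)² / D)`. (b) for `v` and a side `σ`: more than `E'` of the at most `E` ordered pairs (x, y) of adjacent own neighbours have `side x = side y = σ`.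
The expectation `f` of this number is at most `E/4`: pairs with `rep x ≠ rep y` have probability `1/4`, pairs with `y = μ x` probability `0`. Changing one value of `ω` changes
the sides of at most two vertices, so `f` changes by at most `4 D`; only the at most `D` coordinates `rep x` matter. `GoalMCD` (for `- f`, with `I` = the set of these coordinates) gives probability at most
`exp (- (E' - E/4)² / (32 D³))`; two sides: `2 exp (...)`. Dependencies: each event meets at most `8 D²` events: two events meet only if there are `u`, `w ∈ {u, μ u}`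
in the corresponding neighbourhoods. `stmtLLL` (index type `(V × Fin K) ⊕ V`) with `d = 8 D²`, `4 p d ≤ 1`. -/
def GoalHALF : Prop :=
  ∀ (V : Type) [Fintype V] (H : SimpleGraph V) (K : ℕ) (part : V → ℕ) (cc : V → Bool)
    (D D' E E' : ℕ), 1 ≤ K → 1 ≤ D → D ≤ 2 * D' → E ≤ 4 * E' → NearBd H K part D →
    (∀ v, Nat.card {p : V × V // (H.Adj v p.1 ∧ part p.1 = part v) ∧
      (H.Adj v p.2 ∧ part p.2 = part v) ∧ H.Adj p.1 p.2} ≤ E) →
    64 * (D : ℝ) ^ 2 * Real.exp (-(2 * ((D' : ℝ) - D / 2) ^ 2 / D)) ≤ 1 →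
    64 * (D : ℝ) ^ 2 * Real.exp (-(((E' : ℝ) - E / 4) ^ 2 / (32 * (D : ℝ) ^ 3))) ≤ 1 →
    ∃ part' : V → ℕ, (∀ v, part' v = 2 * part v ∨ part' v = 2 * part v + 1) ∧
      NearBd H (2 * K) part' D' ∧
      (∀ v, Nat.card {p : V × V // (H.Adj v p.1 ∧ part' p.1 = part' v) ∧
        (H.Adj v p.2 ∧ part' p.2 = part' v) ∧ H.Adj p.1 p.2} ≤ E') ∧
      ∀ m < K, ∀ c : Bool, ∀ b < 2,
        Nat.card {v // part v = m ∧ cc v = c} / 2 ≤ Nat.card {v // part' v = 2 * m + b ∧ cc v = c} ∧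
        2 * Nat.card {v // part' v = 2 * m + b ∧ cc v = c} ≤
          Nat.card {v // part v = m ∧ cc v = c} + 1

/-- PACKET SPLIT (iterated halving): prove `GoalHALF → GoalSPLIT`.

PROOF. As `Pool/Agent/Helper94/Sey/SPLIT.lean`. `η' = min η δ / 8` (WLOG `η ≤ 1`), `M0` large. `T` = the largest integer with `M0 ≤ Δ / 2^T` (real),
`x = Δ / 2^T ∈ [M0, 2 M0)`. For `s = 1, ..., T`, `t = T - s`: `β = η' (3/4)^t`, `D_s = ⌈x 2^t (1 + β)⌉`, `E_s = ⌈(1 - δ) (x 2^t)² (1 + β)⌉`; `D_0 = Δ`, `E_0 = ⌊(1 - δ) Δ²⌋`. Start `K = 1`, `part = 0`. Step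
`s → s + 1`, `t = T - s ≥ 1`: `D_(s+1) - D_s/2 ≥ (x η'/8) (3/2)^(t-1)` and `E_(s+1) - E_s/4 ≥ (1 - δ) x² 4^(t-1) (η'/4) (3/4)^(t-1) - 1 ≥ (η'/16) x² 3^(t-1)` (`δ ≤ 1/2`), `D_s ≤ 3 x 2^t`; so both exponents are
at least `c x (9/8)^(t-1)` with `c = c(η')` (`9^(t-1)/8^t`), and `64 D² ≤ 576 x² 4^t`; so for `M0` large the conditions hold: e.g. `(9/8)^(t-1) ≥ 1 + (t-1)/8`, `exp (c x/8) ≥ 4`.
At the end `K = 2^T`, `D = D_T = ⌈x (1 + η')⌉`, `M0 ≤ D ≤ 5 M0`, `K D ≤ (1 + η) Δ`, `K M0 ≤ Δ`, `E_T ≤ (1 - δ) (1 + η') x² + 1 ≤ (1 - δ/2) x² ≤ (1 - δ/2) D²`. Sizes: repeated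
`⌊·/2⌋` gives `⌊n_c/2^T⌋`, repeated `⌊(·+1)/2⌋` gives at most `⌊n_c/2^T⌋ + 1`. (For `T = 0`: `K = 1`, `D = Δ`.) -/
def GoalSPLIT : Prop :=
  ∀ (η δ : ℝ) (M1 : ℕ), 0 < η → 0 < δ → δ ≤ 1 / 2 → ∃ M0 : ℕ, M1 ≤ M0 ∧ 1 ≤ M0 ∧
    ∀ (V : Type) [Fintype V] (H : SimpleGraph V) (cc : V → Bool) (Δ : ℕ), M0 ≤ Δ →
      (∀ v, Nat.card {u // H.Adj v u} ≤ Δ) →
      (∀ v, (Nat.card {p : V × V // H.Adj v p.1 ∧ H.Adj v p.2 ∧ H.Adj p.1 p.2} : ℝ) ≤
        (1 - δ) * (Δ : ℝ) ^ 2) →
      ∃ (K D : ℕ) (part : V → ℕ), 1 ≤ K ∧ M0 ≤ D ∧ D ≤ 5 * M0 ∧ K * M0 ≤ Δ ∧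
        ((K : ℝ) * D ≤ (1 + η) * Δ) ∧ NearBd H K part D ∧
        (∀ v, (Nat.card {p : V × V // (H.Adj v p.1 ∧ part p.1 = part v) ∧
          (H.Adj v p.2 ∧ part p.2 = part v) ∧ H.Adj p.1 p.2} : ℝ) ≤ (1 - δ / 2) * (D : ℝ) ^ 2) ∧
        ∀ m < K, ∀ c : Bool, Nat.card {v // cc v = c} / K ≤ Nat.card {v // part v = m ∧ cc v = c} ∧
          Nat.card {v // part v = m ∧ cc v = c} ≤ Nat.card {v // cc v = c} / K + 1

/-! ### Dense neighbourhoods -/

/-- PACKET DECA (pairs in a dense neighbourhood).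

PROOF. `N = N(v)`. `|N|² ≥ (1 - α²) Δ²`, so `|N| ≥ (1 - α²) Δ`. For `x ∈ N` let `m(x) = |N \ N(x)|`; `∑_{x ∈ N} m(x) = |N|² - e ≤ α² Δ²`, where `e` is the number of ordered adjacent pairs in `N`. `Ty = {x ∈ N : m(x) ≤ α Δ}`;
so `|N \ Ty| ≤ α Δ`. For `x ∈ Ty`: `|N(x) ∩ N| = |N| - m(x) ≥ (1 - α² - α) Δ`, so `|N(x) \ N| ≤ (α² + α) Δ ≤ 2 α Δ`. Take a maximal set of disjoint nonadjacent pairs in `Ty` and let `μ` exchange
the two vertices of each pair, `μ x = x` for the others. The other vertices of `Ty` form a clique, so there are at most `(1 - δ) Δ` of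
them, and `|Ty| ≥ (1 - α² - α) Δ ≥ (1 - 2 α) Δ`; so at least `(δ - 2 α) Δ ≥ (δ/2) Δ` vertices have `μ x ≠ x` (`α ≤ δ/4`). -/
def GoalDECA : Prop :=
  ∀ (δ α : ℝ) (V : Type) [Fintype V] (H : SimpleGraph V) (Δ : ℕ), 0 < α → 4 * α ≤ δ → δ ≤ 1 →
    (∀ v, Nat.card {u // H.Adj v u} ≤ Δ) →
    (∀ T : Finset V, (∀ x ∈ T, ∀ y ∈ T, x ≠ y → H.Adj x y) → (T.card : ℝ) ≤ (1 - δ) * Δ) →
    ∀ v, (1 - α ^ 2) * (Δ : ℝ) ^ 2 ≤
      (Nat.card {p : V × V // H.Adj v p.1 ∧ H.Adj v p.2 ∧ H.Adj p.1 p.2} : ℝ) →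
    ∃ (Ty : Set V) (μ : V → V), (∀ x ∈ Ty, H.Adj v x) ∧
      ((Nat.card {x // H.Adj v x ∧ x ∉ Ty} : ℝ) ≤ α * Δ) ∧
      (∀ x ∈ Ty, (Nat.card {y // H.Adj v y ∧ ¬ H.Adj x y} : ℝ) ≤ α * Δ ∧
        (Nat.card {y // H.Adj x y ∧ ¬ H.Adj v y} : ℝ) ≤ 2 * α * Δ) ∧
      (∀ x, μ (μ x) = x) ∧ (∀ x, x ∉ Ty → μ x = x) ∧ (∀ x ∈ Ty, μ x ∈ Ty) ∧
      (∀ x, ¬ H.Adj x (μ x)) ∧ ((δ / 2) * Δ ≤ (Nat.card {x // μ x ≠ x} : ℝ))

/-- PACKET DECB (the units): prove `GoalDECA → GoalDEC`.

PROOF. If `Δ = 0` take `U = V`. Let `Δ > 0`, `β = δ/16`, `α = β/64`, `δ' = α² β / 64`. `v` is dense if `(1 - α²) Δ² ≤ e(v)`, the number of ordered adjacent pairs in `N(v)`; then `|N(v)| ≥ (1 - α²) Δ`. Take `Ty_v`, `μ_v` from `GoalDECA`.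
(1) If `v, v'` are dense and `|N(v) ∩ N(v')| > 2 α Δ`, or if `x ∈ Ty_v ∩ Ty_v'` (in the first case such an `x` exists), then
`|N(v) \ N(v')| ≤ |N(v) \ N(x)| + |N(x) \ N(v')| ≤ 3 α Δ`, and symmetric. Call this `v ≈ v'`; then `|N(v) ∩ N(v')| ≥ (1 - α² - 3 α) Δ > 2 α Δ`; it is an equivalence relation on the dense
vertices (`|N(v) ∩ N(v'')| ≥ |N(v)| - 6 α Δ`). Let `Rp` be a set of representatives. For different `v, v' ∈ Rp` the sets `Ty_v`, `Ty_v'` are disjoint. Let `μ x = μ_v x` if `x ∈ Ty_v`, `v ∈ Rp`, and `μ x = x` for the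
others. `U` = the quotient of `V` by `x ~ μ x` (or: the set of the `x` with `x ≤ μ x` for a linear order), `un` the projection, `H'.Adj a b` iff `a ≠ b` and there are `x`, `y` in the fibres with
`H.Adj x y`. Fibres have one or two elements and are independent.
(2) Unit `{x, μ x}`, `μ x ≠ x`, `x ∈ Ty_v`, `v ∈ Rp`: `|N(x) ∪ N(μ x)| ≤ |N(v)| + 4 α Δ ≤ (1 + 4 α) Δ`. At least `(δ/4) Δ` pairs are in `Ty_v ⊆ N(v)`, and all but at most `α Δ` of them are
contained in `N(x)` (`|N(v) \ N(x)| ≤ α Δ`). So the degree of the unit is at most `(1 + 4 α) Δ - (δ/4 - α) Δ ≤ (1 - δ/8) Δ`.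
(3) Unit `{v}`, `μ v = v`: the degree is at most `|N(v)| ≤ Δ`. The number of ordered adjacent pairs of neighbouring units is at most the square of the degree, so we are done
if the degree of the unit is at most `(1 - β/4) Δ`, e.g. in case (2), or if (B1) `|N(v) ∩ N(v0)| ≥ (1 - β) Δ` for some `v0 ∈ Rp` (at least `(δ/4 - β) Δ` pairs of `Ty_v0` are contained in `N(v)`, so the degree
is at most `(1 - δ/4 + β) Δ`), or if (B2) `|N(v)| ≤ (1 - β/4) Δ`. (B3) otherwise `v` is not dense (else `v ≈ v0`, `|N(v) ∩ N(v0)| ≥ (1 - α² - 3 α) Δ ≥ (1 - β) Δ`), so `e(v) < (1 - α²) Δ²`. Let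
`Y = {x ∈ N(v) : μ x ≠ x}`.
(b) `|Y| ≥ (α²/8) Δ`. Let `x ∈ Y`, `x ∈ Ty_v0`. Call `z ∈ N(v)` bad if `z` or `μ z` is adjacent to `x` or `μ x`. The `z` with `z ∈ N(x) ∪ N(μ x)`: at most `|N(v) ∩ N(v0)| + 4 α Δ ≤ (1 - β + 4 α) Δ`. The
other bad `z` have `μ z ≠ z`, `μ z ∈ N(x) ∪ N(μ x)`: if `z ∈ Ty_v0` then `z ∈ N(v0) \ N(x)`, at most `α Δ`; if `z ∈ Ty_v1`, `v1 ≠ v0`, then `μ z ∈ Ty_v1` is not in `Ty_v0`, so
`μ z ∈ (N(v0) \ Ty_v0) ∪ (N(x) \ N(v0)) ∪ (N(μ x) \ N(v0))`, at most `5 α Δ`. So at least `(1 - β/4) Δ - (1 - β + 10 α) Δ ≥ (β/2) Δ` vertices `z` are good, and at least `(β/4) Δ`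
neighbouring units are not adjacent to the unit of `x`. There are at least `|Y|/2` such units of `x`, so at least `(α²/16) (β/4) Δ²` ordered pairs of neighbouring units are not adjacent; the number of adjacent ones is at most
`(1 - α² β/64) Δ²`.
(c) `|Y| < (α²/8) Δ`. The ordered nonadjacent pairs in `N(v) \ Y` number at least `|N(v)|² - e(v) - 2 |Y| |N(v)| ≥ |N(v)|² - (1 - α²) Δ² - (α²/4) Δ²`; they are pairs of single units. So the number of adjacent pairs is at most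
`|N(v)|² - (|N(v)|² - (1 - 3 α²/4) Δ²) = (1 - 3 α²/4) Δ²`. -/
def GoalDEC : Prop :=
  ∀ δ : ℝ, 0 < δ → δ ≤ 1 → ∃ δ' : ℝ, 0 < δ' ∧ δ' ≤ 1 / 2 ∧
    ∀ (V : Type) [Fintype V] (H : SimpleGraph V) (Δ : ℕ),
      (∀ v, Nat.card {u // H.Adj v u} ≤ Δ) →
      (∀ T : Finset V, (∀ x ∈ T, ∀ y ∈ T, x ≠ y → H.Adj x y) → (T.card : ℝ) ≤ (1 - δ) * Δ) →
      ∃ (U : Type) (_ : Fintype U) (un : V → U) (H' : SimpleGraph U),
        (∀ x y, H.Adj x y → H'.Adj (un x) (un y)) ∧
        (∀ a, 1 ≤ Nat.card {x // un x = a} ∧ Nat.card {x // un x = a} ≤ 2) ∧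
        (∀ a, Nat.card {b // H'.Adj a b} ≤ Δ) ∧
        ∀ a, (Nat.card {p : U × U // H'.Adj a p.1 ∧ H'.Adj a p.2 ∧ H'.Adj p.1 p.2} : ℝ) ≤
          (1 - δ') * (Δ : ℝ) ^ 2

/-- PACKET MAIN: prove `GoalDEC → GoalSPLIT → GoalCORE → GoalMAIN` (with `Pool.Agent.Helper38.Sey.goalASM`).

PROOF. WLOG `δ ≤ 1`. `δ'` from `GoalDEC` for `δ/2`; `γ`, `M1` from `GoalCORE` for `δ'/2`; `M0 ≥ M1` from `GoalSPLIT` for `η = min (γ/8) 1` and `δ'`; `N0` = the maximum of the `N0` of `GoalCORE` for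
`M0 ≤ D ≤ 5 M0`. `ε = γ/2` (or smaller, if `γ > 1` replace `γ` by `1` first: `Out` is monotone in `x`), `K` large in terms of all these. Let `n = |V|`, `s = r + 1`, `Δ = n / s` (natural division), `H = Gᶜ`; then all degrees of `H` are at most `n - 1 - δ(G)` and
`s (n - δ(G)) ≤ n`, so at most `Δ`; `Δ ≥ K/2 - 1 ≥ M0`. A clique `T` of `H` is independent in `G`, so `|T| s ≤ (1 - δ) n`, `|T| ≤ (1 - δ) (Δ + 1) ≤ (1 - δ/2) Δ`. `GoalDEC` gives `U`, `un`, `H'`; `wt a` = the size of the fibre. `GoalSPLIT` with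
`cc a` = (the fibre has two elements) gives `Kp`, `D`, `part`. The weight of a part is `n1 + 2 n2` with `n1`, `n2` the numbers of its units of size 1 and 2, so it is between `n / Kp - 3` and `n / Kp + 3` (reals). Let
`sP = ⌊n / Kp⌋ - 3`; `Kp M0 ≤ Δ`, so `n / Kp ≥ M0 n / Δ ≥ M0 s ≥ K`, so `sP ≥ N0` and the weights are at most `2 sP`. `GoalCORE`: `Out H' wt ((1 + γ) sP / D)`: `N, J, m0, C, τ`. `goalASM` for `V`, `H`, `C ∘ un`,
`τ ∘ un` (the number of `v : V` with `C (un v) = g`, `τ (un v) = j` is the weight sum): `σ` with distances `> (J - 2) m0 ≥ (1 + γ) sP / D` for the ends of edges of `H`. `sP ≥ n / Kp - 4`, `Kp D ≤ (1 + η) Δ ≤ (1 + η) n / s`, so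
`sP / D ≥ s / (1 + η) - 4`, and `(1 + γ) (s / (1 + η) - 4) ≥ (1 + γ/2) s` for `s ≥ K`. -/
def GoalMAIN : Prop :=
  ∀ δ : ℝ, 0 < δ → ∃ (K : ℕ) (ε : ℝ), 0 < ε ∧ ∀ r : ℕ, K ≤ r →
    ∀ (V : Type) [Fintype V] [DecidableEq V] (G : SimpleGraph V) [DecidableRel G.Adj],
      K * r ≤ Fintype.card V → r * Fintype.card V ≤ (r + 1) * G.minDegree →
      (∀ S : Finset V, (∀ u ∈ S, ∀ v ∈ S, ¬ G.Adj u v) →
        ((r : ℝ) + 1) * S.card ≤ (1 - δ) * Fintype.card V) →
      ∃ σ : Fin (Fintype.card V) ≃ V, ∀ i k : Fin (Fintype.card V), k ≠ i →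
        (((k.val + Fintype.card V - i.val) % Fintype.card V : ℕ) : ℝ) ≤ (1 + ε) * r →
          G.Adj (σ i) (σ k)

end Pool.Agent.Helper63.Sey3
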