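import Pool.Agent.Helper63.Sey3.Defs

/-!
# Basic facts (project SEY3)
-/

namespace Pool.Agent.Helper63.Sey3

open Pool.Agent.Helper41.Girth4 (Pr)
open Pool.Agent.Helper8.Sey (near NearBd near_symm near_three)

namespace Sy

variable {V : Type} (P : Sy V)

theorem N_def : P.N = P.K * P.qm := rfl

theorem D_le_q : P.D ≤ P.q := by have := P.hq; omega

theorem q_pos : 0 < P.q := by have := P.hD; have := P.hq; omega

theorem qm_pos : 0 < P.qm := by have := P.hJqm; omega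

theorem J_lt_qm : P.J < P.qm := by have := P.hJqm; omega

theorem qm_le_N : P.qm ≤ P.N := Nat.le_mul_of_pos_left _ P.hK

theorem J_lt_N : P.J < P.N := P.J_lt_qm.trans_le P.qm_le_N

theorem eight_le_N : 8 ≤ P.N := by
  have h1 := P.hJ
  have h2 := P.hJqm
  have h3 := P.qm_le_N
  omega

theorem part_lt (v : V) : P.part v < P.K := P.hnear.1 v

theorem own_symm {u v : V} (h : P.Own u v) : P.Own v u := ⟨h.1.symm, h.2.symm⟩

theorem own_ne {u v : V} (h : P.Own u v) : u ≠ v := h.1.ne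

theorem near_self (l : ℕ) : near P.K l l := Or.inl rfl

/-- at most `D` own neighbours -/
theorem dg_le (v : V) : P.dg v ≤ P.D :=
  P.hnear.2 v (P.part v) (P.part_lt v) (Or.inl rfl)

theorem lt_N {l : ℕ} (hl : l < P.K) {a : ℕ} (ha : a < P.qm) : l * P.qm + a < P.N := by
  have h1 : l + 1 ≤ P.K := hl
  have h2 : (l + 1) * P.qm ≤ P.K * P.qm := Nat.mul_le_mul_right _ h1
  rw [N_def]
  have h4 : (l + 1) * P.qm = l * P.qm + P.qm := by ring
  omega

theorem cl_val {l : ℕ} (hl : l < P.K) {a : ℕ} (ha : a < P.qm) :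
    (P.cl l a).val = l * P.qm + a := by
  unfold cl
  rw [ZMod.val_natCast, Nat.mod_eq_of_lt (P.lt_N hl ha)]

theorem cl_inj {l l' : ℕ} (hl : l < P.K) (hl' : l' < P.K) {a a' : ℕ} (ha : a < P.qm)
    (ha' : a' < P.qm) (h : P.cl l a = P.cl l' a') : l = l' ∧ a = a' := by
  have h1 : l * P.qm + a = l' * P.qm + a' := by
    rw [← P.cl_val hl ha, ← P.cl_val hl' ha', h]
  have hq := P.qm_pos
  have h2 : (l * P.qm + a) / P.qm = l := by
    rw [mul_comm, Nat.mul_add_div hq, Nat.div_eq_of_lt ha, add_zero]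
  have h3 : (l' * P.qm + a') / P.qm = l' := by
    rw [mul_comm, Nat.mul_add_div hq, Nat.div_eq_of_lt ha', add_zero]
  have h4 : l = l' := by rw [← h2, h1, h3]
  refine ⟨h4, ?_⟩
  subst h4
  omega

theorem cl_surj (g : ZMod P.N) : ∃ l < P.K, ∃ a < P.qm, g = P.cl l a := by
  have hq := P.qm_pos
  have h1 : g.val < P.K * P.qm := ZMod.val_lt g
  refine ⟨g.val / P.qm, (Nat.div_lt_iff_lt_mul hq).2 h1, g.val % P.qm, Nat.mod_lt _ hq, ?_⟩
  have h2 : g.val / P.qm * P.qm + g.val % P.qm = g.val := Nat.div_add_mod' _ _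
  unfold cl
  simp only [h2]
  exact (ZMod.natCast_zmod_val g).symm

/-- the next class -/
theorem cl_succ (l a : ℕ) : P.cl l a + 1 = P.cl l (a + 1) := by
  unfold cl
  push_cast
  ring

/-- classes `g - t` inside a part -/
theorem cl_sub (l a t : ℕ) (h : t ≤ a) : P.cl l a - (t : ZMod P.N) = P.cl l (a - t) := by
  unfold cl
  rw [sub_eq_iff_eq_add, ← Nat.cast_add]
  congr 1
  omega

theorem cl_wrap (l a : ℕ) : P.cl l (P.qm + a) = P.cl (l + 1) a := by
  unfold cl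
  congr 1
  ring

theorem cl_K (a : ℕ) : P.cl P.K a = P.cl 0 a := by
  unfold cl
  rw [Nat.cast_add, Nat.cast_add, ← N_def, ZMod.natCast_self, zero_mul, Nat.cast_zero]

/-- The classes `g - t`, `t ≤ qm`, lie in the part of `g` or the cyclically previous part. -/
theorem sub_part {l a : ℕ} (hl : l < P.K) (ha : a < P.qm) (t : ℕ) (ht : t ≤ P.qm) :
    ∃ l' < P.K, ∃ a' < P.qm, P.cl l a - (t : ZMod P.N) = P.cl l' a' ∧
      (l' = l ∨ l' + 1 = l ∨ (l = 0 ∧ l' + 1 = P.K)) := by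
  by_cases h : t ≤ a
  · exact ⟨l, hl, a - t, by omega, P.cl_sub l a t h, Or.inl rfl⟩
  · rcases Nat.eq_zero_or_pos l with h0 | h0
    · subst h0
      have hK := P.hK
      refine ⟨P.K - 1, by omega, P.qm + a - t, by omega, ?_, Or.inr (Or.inr ⟨rfl, by omega⟩)⟩
      have h1 : P.cl 0 a = P.cl (P.K - 1) (P.qm + a) := by
        rw [P.cl_wrap, Nat.sub_add_cancel hK, P.cl_K]
      rw [h1, P.cl_sub _ _ t (by omega)]
    · refine ⟨l - 1, by omega, P.qm + a - t, by omega, ?_, Or.inr (Or.inl (by omega))⟩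
      have h1 : P.cl l a = P.cl (l - 1) (P.qm + a) := by
        rw [P.cl_wrap, Nat.sub_add_cancel h0]
      rw [h1, P.cl_sub _ _ t (by omega)]

/-- The class `g + 1` lies in the part of `g` or the cyclically next part. -/
theorem add_part {l a : ℕ} (hl : l < P.K) (ha : a < P.qm) :
    ∃ l' < P.K, ∃ a' < P.qm, P.cl l a + 1 = P.cl l' a' ∧
      (l' = l ∨ l' = l + 1 ∨ (l' = 0 ∧ l + 1 = P.K)) := by
  rw [P.cl_succ]
  by_cases h : a + 1 < P.qm
  · exact ⟨l, hl, a + 1, h, rfl, Or.inl rfl⟩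
  · have h1 : P.cl l (a + 1) = P.cl (l + 1) 0 := by
      have : a + 1 = P.qm + 0 := by omega
      rw [this, P.cl_wrap]
    by_cases h2 : l + 1 < P.K
    · exact ⟨l + 1, h2, 0, P.qm_pos, h1, Or.inr (Or.inl rfl)⟩
    · have h3 : l + 1 = P.K := by omega
      refine ⟨0, P.hK, 0, P.qm_pos, ?_, Or.inr (Or.inr ⟨rfl, h3⟩)⟩
      rw [h1, h3, P.cl_K]

/-- parts of consecutive classes are near -/
theorem near_of_succ {l l' a a' : ℕ} (hl : l < P.K) (hl' : l' < P.K) (ha : a < P.qm)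
    (ha' : a' < P.qm) (h : P.cl l a + 1 = P.cl l' a') : near P.K l l' := by
  obtain ⟨m, hm, b, hb, h1, h2⟩ := P.add_part hl ha
  have h3 := (P.cl_inj hl' hm ha' hb (by rw [← h, h1])).1
  unfold near
  omega

/-! ### Classes of vertices -/

/-- A vertex is in class `cl l a` iff its part is `l` and its colour is `a`. -/
theorem isC_iff (ω : P.Om) (v : V) {l a : ℕ} (hl : l < P.K) (ha : a < P.qm) :
    P.isC ω v (P.cl l a) ↔ P.part v = l ∧ ∃ x : Fin P.q, P.col ω v = some x ∧ (x : ℕ) = a := by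
  constructor
  · rintro ⟨x, h1, h2, h3⟩
    obtain ⟨h4, h5⟩ := P.cl_inj (P.part_lt v) hl h2 ha h3
    exact ⟨h4, x, h1, h5⟩
  · rintro ⟨h1, x, h2, h3⟩
    exact ⟨x, h2, by omega, by rw [h1, h3]⟩

theorem isC_uniq {ω : P.Om} {v : V} {g g' : ZMod P.N} (h : P.isC ω v g) (h' : P.isC ω v g') :
    g = g' := by
  obtain ⟨x, h1, -, h3⟩ := h
  obtain ⟨x', h1', -, h3'⟩ := h'
  have : x = x' := by
    rw [h1] at h1'
    exact Option.some.inj h1'
  rw [← h3, ← h3', this]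

theorem not_Ms_iff (ω : P.Om) (v : V) : ¬ P.Ms ω v ↔ ∃ g, P.isC ω v g := by
  unfold Ms isC
  constructor
  · intro h
    push Not at h
    obtain ⟨a, h1, h2⟩ := h
    exact ⟨_, a, h1, h2, rfl⟩
  · rintro ⟨g, a, h1, h2, -⟩ h
    exact absurd h2 (not_lt.2 (h a h1))

theorem isC_not_Ms {ω : P.Om} {v : V} {g : ZMod P.N} (h : P.isC ω v g) : ¬ P.Ms ω v :=
  (P.not_Ms_iff ω v).2 ⟨g, h⟩

/-- the part of the class before a class: the candidates for forcing -/
theorem cand {l a : ℕ} (hl : l < P.K) (ha : a < P.qm) : ∃ m < P.K, ∃ b < P.qm, near P.K l m ∧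
    P.cl l a - 1 = P.cl m b ∧
    ∀ (ω : P.Om) (u : V), P.isC ω u (P.cl l a - 1) → P.part u = m := by
  have h0 := P.qm_pos
  obtain ⟨m, hm, b, hb, h1, h2⟩ := P.sub_part hl ha 1 (by omega)
  rw [Nat.cast_one] at h1
  refine ⟨m, hm, b, hb, ?_, h1, ?_⟩
  · unfold near; omega
  · intro ω u hu
    rw [h1] at hu
    exact ((P.isC_iff ω u hm hb).1 hu).1

/-- Vertices in consecutive classes have near parts. -/
theorem near_of_isC {ω : P.Om} {u v : V} {g : ZMod P.N} (hu : P.isC ω u g)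
    (hv : P.isC ω v (g + 1)) : near P.K (P.part u) (P.part v) := by
  obtain ⟨x, -, h2, h3⟩ := hu
  obtain ⟨y, -, h2', h3'⟩ := hv
  exact P.near_of_succ (P.part_lt u) (P.part_lt v) h2 h2' (by rw [h3, h3'])

/-! ### The process -/

variable (R : ℕ → V → ZMod P.N → ℕ) (ω : P.Om)

theorem U_zero (v : V) : P.U R ω 0 v := trivial

theorem U_succ (j : ℕ) (v : V) : P.U R ω (j + 1) v ↔ P.U R ω j v ∧ ¬ P.T R ω j v := Iff.rfl

theorem T_iff (j : ℕ) (v : V) : P.T R ω j v ↔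
    P.U R ω j v ∧ ∃ g, P.isC ω v g ∧ (P.Fo R ω j v g ∨ P.coin (ω v) j < R j v g) := by
  cases j with
  | zero =>
    constructor
    · rintro ⟨g, h1, h2⟩
      exact ⟨trivial, g, h1, Or.inr h2⟩
    · rintro ⟨_, g, h1, h | h⟩
      · exact h.elim
      · exact ⟨g, h1, h⟩
  | succ j => exact Iff.rfl

theorem T_iff' (j : ℕ) {v : V} {g : ZMod P.N} (hg : P.isC ω v g) : P.T R ω j v ↔
    P.U R ω j v ∧ (P.Fo R ω j v g ∨ P.coin (ω v) j < R j v g) := by
  rw [P.T_iff]
  constructor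
  · rintro ⟨h1, g', h2, h3⟩
    rw [P.isC_uniq hg h2]
    exact ⟨h1, h3⟩
  · rintro ⟨h1, h3⟩
    exact ⟨h1, g, hg, h3⟩

theorem T_imp_U (j : ℕ) (v : V) (h : P.T R ω j v) : P.U R ω j v := ((P.T_iff R ω j v).1 h).1

theorem T_isC (j : ℕ) (v : V) (h : P.T R ω j v) : ∃ g, P.isC ω v g := by
  obtain ⟨_, g, h1, _⟩ := (P.T_iff R ω j v).1 h
  exact ⟨g, h1⟩

theorem U_iff (j : ℕ) (v : V) : P.U R ω j v ↔ ∀ i < j, ¬ P.T R ω i v := by
  induction j with
  | zero => exact ⟨fun _ i hi => absurd hi (Nat.not_lt_zero i), fun _ => trivial⟩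
  | succ j ih =>
    rw [U_succ, ih]
    constructor
    · rintro ⟨h1, h2⟩ i hi
      rcases Nat.lt_succ_iff_lt_or_eq.1 hi with h | rfl
      · exact h1 i h
      · exact h2
    · intro h
      exact ⟨fun i hi => h i (by omega), h j (by omega)⟩

/-- A vertex is scheduled at most once. -/
theorem T_unique {i j : ℕ} {v : V} (hi : P.T R ω i v) (hj : P.T R ω j v) : i = j := by
  rcases lt_trichotomy i j with h | h | h
  · exact absurd hi ((P.U_iff R ω j v).1 (P.T_imp_U R ω j v hj) i h)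
  · exact h
  · exact absurd hj ((P.U_iff R ω i v).1 (P.T_imp_U R ω i v hi) j h)

/-- The rule for arcs. -/
theorem T_arc {j : ℕ} {u v : V} {g : ZMod P.N} (h : P.H.Adj u v) (hv : P.isC ω v g)
    (hu' : P.isC ω u (g - 1)) (hu : P.T R ω j u) : ∃ i ≤ j + 1, P.T R ω i v := by
  by_cases hU : P.U R ω (j + 1) v
  · exact ⟨j + 1, le_rfl, (P.T_iff R ω (j + 1) v).2 ⟨hU, g, hv, Or.inl ⟨u, h, hu', hu⟩⟩⟩
  · rw [U_iff] at hU
    push Not at hU
    obtain ⟨i, hi, h⟩ := hU
    exact ⟨i, hi.le, h⟩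

theorem mem_Win {j : ℕ} {g h : ZMod P.N} : h ∈ P.Win j g ↔ ∃ t ≤ j, h = g - (t : ZMod P.N) := by
  unfold Win
  simp only [Finset.mem_image, Finset.mem_range, Nat.lt_succ_iff]
  constructor
  · rintro ⟨t, ht, rfl⟩
    exact ⟨t, ht, rfl⟩
  · rintro ⟨t, ht, rfl⟩
    exact ⟨t, ht, rfl⟩

theorem card_Win_le (j : ℕ) (g : ZMod P.N) : (P.Win j g).card ≤ j + 1 := by
  unfold Win
  exact Finset.card_image_le.trans (by simp)

theorem self_mem_Win (j : ℕ) (g : ZMod P.N) : g ∈ P.Win j g :=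
  P.mem_Win.2 ⟨0, Nat.zero_le _, by simp⟩

theorem Win_mono {i j : ℕ} (h : i ≤ j) (g : ZMod P.N) : P.Win i g ⊆ P.Win j g := by
  intro x hx
  obtain ⟨t, ht, rfl⟩ := P.mem_Win.1 hx
  exact P.mem_Win.2 ⟨t, ht.trans h, rfl⟩

theorem Win_pred (j : ℕ) (g : ZMod P.N) : P.Win j (g - 1) ⊆ P.Win (j + 1) g := by
  intro x hx
  obtain ⟨t, ht, rfl⟩ := P.mem_Win.1 hx
  refine P.mem_Win.2 ⟨t + 1, by omega, ?_⟩
  push_cast
  ring

/-- `g` is not in the window of `g - 1` of length `j < J`. -/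
theorem not_mem_Win {j : ℕ} (hj : j < P.J) (g : ZMod P.N) : g ∉ P.Win j (g - 1) := by
  intro h
  obtain ⟨t, ht, h1⟩ := P.mem_Win.1 h
  have h2 : ((t + 1 : ℕ) : ZMod P.N) = 0 := by
    push_cast
    linear_combination h1
  rw [ZMod.natCast_eq_zero_iff] at h2
  have h3 := Nat.le_of_dvd (by omega) h2
  have h4 := P.J_lt_N
  omega

/-! ### The colouring -/

theorem st_zero : P.st ω 0 = P.c0 ω := rfl

theorem st_succ (i : ℕ) : P.st ω (i + 1) = P.stp ω i (P.st ω i) := rfl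

theorem stp_of_ne {i : ℕ} {c : V → Option (Fin P.q)} {v : V} (h : c v ≠ none) :
    P.stp ω i c v = c v := by
  unfold stp
  rw [if_pos h]

/-- colours are kept -/
theorem st_mono {i j : ℕ} (h : i ≤ j) {v : V} (hv : P.st ω i v ≠ none) :
    P.st ω j v = P.st ω i v := by
  induction j, h using Nat.le_induction with
  | base => rfl
  | succ j _ ih =>
    rw [st_succ, P.stp_of_ne ω (by rw [ih]; exact hv), ih]

theorem st_eq_some {i j : ℕ} (h : i ≤ j) {v : V} {a : Fin P.q} (hv : P.st ω i v = some a) :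
    P.st ω j v = some a := by
  rw [P.st_mono ω h (by rw [hv]; exact Option.some_ne_none a), hv]

/-- an uncoloured vertex which gets a colour in round `i` -/
theorem stp_some {i : ℕ} {c : V → Option (Fin P.q)} {v : V} {a : Fin P.q} (h : c v = none)
    (h' : P.stp ω i c v = some a) : P.rd (ω v) = i ∧ P.pk ω c v = a ∧ ¬ P.used c v a ∧
      ∀ y, P.Own v y → P.idx y < P.idx v → c y = none → P.rd (ω y) = i → P.pk ω c y ≠ a := by
  unfold stp at h'
  rw [if_neg (by simp [h])] at h'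
  split_ifs at h' with h1
  have h2 := Option.some.inj h'
  rw [h2] at h1
  exact ⟨h1.1, h2, h1.2.1, h1.2.2⟩

/-- a vertex which is uncoloured before its round and stays uncoloured in it -/
theorem stp_none {c : V → Option (Fin P.q)} {v : V} (h : c v = none)
    (h' : P.stp ω (P.rd (ω v)) c v = none) : P.used c v (P.pk ω c v) ∨
      ∃ y, P.Own v y ∧ P.idx y < P.idx v ∧ c y = none ∧ P.rd (ω y) = P.rd (ω v) ∧
        P.pk ω c y = P.pk ω c v := by
  unfold stp at h'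
  rw [if_neg (by simp [h])] at h'
  split_ifs at h' with h1
  by_contra hcon
  push Not at hcon
  exact h1 ⟨rfl, hcon.1, hcon.2⟩

/-- outside its round an uncoloured vertex stays uncoloured -/
theorem stp_other {i : ℕ} {c : V → Option (Fin P.q)} {v : V} (h : P.rd (ω v) ≠ i) :
    P.stp ω i c v = c v := by
  unfold stp
  split_ifs with h1 h2
  · rfl
  · exact absurd h2.1 h
  · push Not at h1
    exact h1.symm

theorem rd_lt (x : P.Lab) : P.rd x < P.Z := x.2.1.1.2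

theorem pc_lt (x : P.Lab) : P.pc x < P.qm := x.2.2.2.1.2

theorem pt_lt (x : P.Lab) : P.pt x < P.J := x.2.2.2.2.2

end Sy

end Pool.Agent.Helper63.Sey3
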