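import Pool.Agent.Helper8.Sey.Basic
import Pool.Agent.Helper51.Girth4.LLL
import Pool.Agent.Helper38.Sey.ASM

/-!
# Project SEY3 (MP_b6b2d3_co): Seymour's conjecture away from the extremal case. Definitions.

`Sy V` is a system: a graph `H` (conflicts) on `V`, cut into `K` parts arranged in a cycle, each vertex has at
most `D` neighbours in each near part. `q` colours, of which the first `qm` are the main colours;
the classes (part, main colour) are arranged in a cycle of length `N = K qm`.

The random partial colouring `col` of each part: round `0`: each vertex is active with probability `1/2`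
and proposes a uniform colour; it keeps it if no active neighbour in its part proposes the same
colour. After that there are `Z` rounds; every uncoloured vertex has one round `rd`; in it, it
proposes the first colour of its priority list `pm` which is not used by its neighbours in the part;
it keeps it unless a neighbour in the part with smaller `idx`, which is uncoloured and has the same round, proposes
the same colour.

The block process (as in project SEY): the vertices of the classes are scheduled at times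
`0, 1, ..., J - 1`; a vertex of class `g` is forced at time `j + 1` if it has a neighbour in
class `g - 1` scheduled at time `j`.

The vertices which do not get a main colour (`Ms`) are inserted into classes afterwards; every vertex has a
random proposal `(pc, pt)` for this: main colour and time.
-/

namespace Pool.Agent.Helper63.Sey3

open Pool.Agent.Helper41.Girth4 (Pr)
open Pool.Agent.Helper8.Sey (near NearBd)

structure Sy (V : Type) where
  /-- the graph -/
  H : SimpleGraph V
  /-- number of parts -/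
  K : ℕ
  /-- degree bound to near parts -/
  D : ℕ
  /-- number of colours -/
  q : ℕ
  /-- number of main colours -/
  qm : ℕ
  /-- number of time steps -/
  J : ℕ
  /-- number of values of a coin -/
  L : ℕ
  /-- number of rounds -/
  Z : ℕ
  /-- the part of a vertex -/
  part : V → ℕ
  /-- an enumeration of the vertices -/
  idx : V → ℕ
  hK : 1 ≤ K
  hD : 1 ≤ D
  hq : D + J ≤ q
  hq2 : q ≤ 2 * D
  hqm : qm ≤ q
  hqm2 : D ≤ 2 * qm
  hJ : 2 ≤ J
  hJqm : J + 6 ≤ qm
  hL : 1 ≤ L
  hZ : 1 ≤ Z
  hnear : NearBd H K part D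
  hidx : Function.Injective idx

namespace Sy

variable {V : Type} (P : Sy V)

/-- number of classes -/
def N : ℕ := P.K * P.qm

instance : NeZero P.q := ⟨by have := P.hD; have := P.hq; omega⟩
instance : NeZero P.qm := ⟨by have := P.hJqm; omega⟩
instance : NeZero P.J := ⟨by have := P.hJ; omega⟩
instance : NeZero P.L := ⟨by have := P.hL; omega⟩
instance : NeZero P.Z := ⟨by have := P.hZ; omega⟩
instance : NeZero P.N := ⟨by
  have h1 := P.hJqm
  have h2 := P.hK
  unfold N
  exact Nat.mul_ne_zero (by omega) (by omega)⟩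

/-- labels: (active in round 0, proposal of round 0), (round, priority list), the `J` coins, the
proposal for the insertion -/
abbrev Lab : Type :=
  (Bool × Fin P.q) × (Fin P.Z × Equiv.Perm (Fin P.q)) × (Fin P.J → Fin P.L) × (Fin P.qm × Fin P.J)

/-- the outcomes -/
abbrev Om : Type := V → P.Lab

def al (x : P.Lab) : Prop := x.1.1 = true
def co (x : P.Lab) : Fin P.q := x.1.2
def rd (x : P.Lab) : ℕ := (x.2.1.1 : ℕ)
def pm (x : P.Lab) : Equiv.Perm (Fin P.q) := x.2.1.2
/-- the value of the coin of time `j` (and `L`, i.e. never, if `j ≥ J`) -/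
def coin (x : P.Lab) (j : ℕ) : ℕ := if h : j < P.J then ((x.2.2.1 ⟨j, h⟩ : Fin P.L) : ℕ) else P.L
def pc (x : P.Lab) : ℕ := (x.2.2.2.1 : ℕ)
def pt (x : P.Lab) : ℕ := (x.2.2.2.2 : ℕ)

/-- replace all priority lists -/
def setpm (ω : P.Om) (π : V → Equiv.Perm (Fin P.q)) : P.Om := fun v =>
  ((ω v).1, ((ω v).2.1.1, π v), (ω v).2.2)

/-- `u` is an own neighbour of `v`: a neighbour in the same part -/
def Own (v u : V) : Prop := P.H.Adj v u ∧ P.part u = P.part v

/-- the colour `a` is used in the part by a neighbour of `v` -/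
def used (c : V → Option (Fin P.q)) (v : V) (a : Fin P.q) : Prop := ∃ u, P.Own v u ∧ c u = some a

open Classical in
/-- round 0 -/
noncomputable def c0 (ω : P.Om) : V → Option (Fin P.q) := fun v =>
  if P.al (ω v) ∧ ∀ y, P.Own v y → ¬ (P.al (ω y) ∧ P.co (ω y) = P.co (ω v)) then
    some (P.co (ω v)) else none

/-- the proposal -/
noncomputable def pk (ω : P.Om) (c : V → Option (Fin P.q)) (v : V) : Fin P.q :=
  Pool.Agent.Helper8.Sey.Sys.pick (P.pm (ω v)) (P.used c v)

open Classical in
/-- one round -/
noncomputable def stp (ω : P.Om) (i : ℕ) (c : V → Option (Fin P.q)) : V → Option (Fin P.q) := fun v =>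
  if c v ≠ none then c v
  else if P.rd (ω v) = i ∧ ¬ P.used c v (P.pk ω c v) ∧
      ∀ y, P.Own v y → P.idx y < P.idx v → c y = none → P.rd (ω y) = i →
        P.pk ω c y ≠ P.pk ω c v then
    some (P.pk ω c v)
  else none

/-- the state before round `i` (the rounds are numbered `0, ..., Z - 1`) -/
noncomputable def st (ω : P.Om) : ℕ → V → Option (Fin P.q)
  | 0 => P.c0 ω
  | i + 1 => P.stp ω i (st ω i)

/-- the final partial colouring -/
noncomputable def col (ω : P.Om) : V → Option (Fin P.q) := P.st ω P.Z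

/-- class number `(l, a)` -/
def cl (l a : ℕ) : ZMod P.N := ((l * P.qm + a : ℕ) : ZMod P.N)

/-- `v` has a main colour, and its class is `g` -/
def isC (ω : P.Om) (v : V) (g : ZMod P.N) : Prop :=
  ∃ a : Fin P.q, P.col ω v = some a ∧ (a : ℕ) < P.qm ∧ P.cl (P.part v) a = g

/-- `v` has no main colour -/
def Ms (ω : P.Om) (v : V) : Prop := ∀ a : Fin P.q, P.col ω v = some a → P.qm ≤ (a : ℕ)

/-- The process for thresholds `R`: the pair (unscheduled before time `j`, scheduled at time `j`). -/
noncomputable def proc (R : ℕ → V → ZMod P.N → ℕ) (ω : P.Om) : ℕ → (V → Prop) × (V → Prop)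
  | 0 => (fun _ => True, fun v => ∃ g, P.isC ω v g ∧ P.coin (ω v) 0 < R 0 v g)
  | j + 1 =>
    (fun v => (proc R ω j).1 v ∧ ¬ (proc R ω j).2 v,
     fun v => ((proc R ω j).1 v ∧ ¬ (proc R ω j).2 v) ∧ ∃ g, P.isC ω v g ∧
      ((∃ u, P.H.Adj u v ∧ P.isC ω u (g - 1) ∧ (proc R ω j).2 u) ∨
        P.coin (ω v) (j + 1) < R (j + 1) v g))

/-- unscheduled before time `j` -/
def U (R : ℕ → V → ZMod P.N → ℕ) (ω : P.Om) (j : ℕ) (v : V) : Prop := (P.proc R ω j).1 v

/-- scheduled at time `j` -/
def T (R : ℕ → V → ZMod P.N → ℕ) (ω : P.Om) (j : ℕ) (v : V) : Prop := (P.proc R ω j).2 v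

/-- forced at time `j` if the class is `g` -/
def Fo (R : ℕ → V → ZMod P.N → ℕ) (ω : P.Om) : ℕ → V → ZMod P.N → Prop
  | 0, _, _ => False
  | j + 1, v, g => ∃ u, P.H.Adj u v ∧ P.isC ω u (g - 1) ∧ P.T R ω j u

/-- `ω` and `ω'` agree on the classes of `W`: same members; and all coins and all proposals for the
insertion are the same. -/
def Agree (W : Finset (ZMod P.N)) (ω ω' : P.Om) : Prop :=
  ∀ w, (∀ g ∈ W, P.isC ω w g ↔ P.isC ω' w g) ∧ (ω w).2.2 = (ω' w).2.2

/-- the window `g, g - 1, ..., g - j` -/
def Win (j : ℕ) (g : ZMod P.N) : Finset (ZMod P.N) :=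
  (Finset.range (j + 1)).image fun t : ℕ => g - (t : ZMod P.N)

/-- number of own neighbours -/
noncomputable def dg (v : V) : ℕ := Nat.card {u // P.Own v u}

/-- number of colours which two own neighbours of `v` have after round 0 -/
noncomputable def rp (ω : P.Om) (v : V) : ℕ :=
  Nat.card {a : Fin P.q // ∃ u u', u ≠ u' ∧ P.Own v u ∧ P.Own v u' ∧
    P.c0 ω u = some a ∧ P.c0 ω u' = some a}

/-- good vertex: at most `D - κ` colours can ever be used by own neighbours -/
def Gd (κ : ℕ) (ω : P.Om) (v : V) : Prop := P.dg v + κ ≤ P.D + P.rp ω v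

/-- number of own neighbours with the same round -/
noncomputable def sm (ω : P.Om) (v : V) : ℕ :=
  Nat.card {u // P.Own v u ∧ P.rd (ω u) = P.rd (ω v)}

/-- no neighbour of `w` is in the classes `g - 1`, `g`, `g + 1` -/
def Tm (ω : P.Om) (w : V) (g : ZMod P.N) : Prop :=
  ∀ u, P.H.Adj w u → ¬ P.isC ω u (g - 1) ∧ ¬ P.isC ω u g ∧ ¬ P.isC ω u (g + 1)

/-- `w` has no main colour, proposes `(a, j)`, no neighbour is in the class `g = (part w, a)` or the
classes `g ± 1`, and no neighbour proposes one of these classes -/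
def Ins (ω : P.Om) (w : V) (a j : ℕ) : Prop :=
  P.Ms ω w ∧ P.pc (ω w) = a ∧ P.pt (ω w) = j ∧ P.Tm ω w (P.cl (P.part w) a) ∧
  ∀ u, P.H.Adj w u → P.cl (P.part u) (P.pc (ω u)) ≠ P.cl (P.part w) a - 1 ∧
    P.cl (P.part u) (P.pc (ω u)) ≠ P.cl (P.part w) a ∧
    P.cl (P.part u) (P.pc (ω u)) ≠ P.cl (P.part w) a + 1

/-- the inner main colour `a` is free for `w`: no own neighbour has colour `a - 1`, `a` or `a + 1` -/
def Fa (ω : P.Om) (w : V) (a : ℕ) : Prop :=
  1 ≤ a ∧ a + 2 ≤ P.qm ∧ ∀ u, P.Own w u → ∀ x : Fin P.q, P.col ω u = some x →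
    (x : ℕ) + 1 ≠ a ∧ (x : ℕ) ≠ a ∧ (x : ℕ) ≠ a + 1

end Sy

end Pool.Agent.Helper63.Sey3
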