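import Pool.Agent.Helper2.Sey3.TM
import Pool.Agent.Helper5.Sey3.SPLIT
import Pool.Agent.Helper7.Sey3.COREA
import Pool.Agent.Helper13.Sey3.EX
import Pool.Agent.Helper16.Sey3.DECB
import Pool.Agent.Helper16.Sey3.GP
import Pool.Agent.Helper20.Sey3.COREB
import Pool.Agent.Helper22.Sey3.SEQ
import Pool.Agent.Helper23.Sey3.V1
import Pool.Agent.Helper24.Sey3.COLP
import Pool.Agent.Helper32.Sey3.GRE
import Pool.Agent.Helper32.Sey3.LOCP
import Pool.Agent.Helper32.Sey3.NEG
import Pool.Agent.Helper32.Sey3.PROP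
import Pool.Agent.Helper32.Sey3.WIN
import Pool.Agent.Helper40.Sey3.SEL
import Pool.Agent.Helper40.Sey3.SM
import Pool.Agent.Helper46.Sey3.STL
import Pool.Agent.Helper51.Sey3.V2
import Pool.Agent.Helper56.Sey3.DECA
import Pool.Agent.Helper57.Sey3.MCD
import Pool.Agent.Helper57.Sey3.PICK
import Pool.Agent.Helper69.Sey3.HOE
import Pool.Agent.Helper70.Sey3.LOC
import Pool.Agent.Helper71.Sey3.IN
import Pool.Agent.Helper72.Sey3.HALF
import Pool.Agent.Helper84.Sey3.MAIN
import Pool.Agent.Helper85.Sey3.LOC2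
import Pool.Agent.Helper86.Sey3.LL2
import Pool.Agent.Helper87.Sey3.REC
import Pool.Agent.Helper91.Sey3.RES
import Pool.Agent.Helper91.Sey3.SEU
import Pool.Agent.Helper95.Sey3.MISS

/-!
# Project SEY3: the final theorem
-/

namespace Pool.Agent.Helper63.Sey3

open Pool.Agent

theorem goalMAIN : GoalMAIN := by
  have hPICK : GoalPICK := Helper57.Sey3.goalPICK
  have hMCD : GoalMCD := Helper57.Sey3.goalMCD
  have hNEG : GoalNEG := Helper32.Sey3.goalNEG
  have hSEQ : GoalSEQ := Helper22.Sey3.goalSEQ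
  have hSEU : GoalSEU := Helper91.Sey3.goalSEU
  have hSEL : GoalSEL := Helper40.Sey3.goalSEL
  have hHOE : GoalHOE := Helper69.Sey3.goalHOE
  have hLL2 : GoalLL2 := Helper86.Sey3.goalLL2
  have hRES : GoalRES := Helper91.Sey3.goalRES
  have hSTL : GoalSTL := Helper46.Sey3.goalSTL
  have hMISS : GoalMISS := Helper95.Sey3.goalMISS
  have hPROP : GoalPROP := Helper32.Sey3.goalPROP
  have hEX : GoalEX := Helper13.Sey3.goalEX
  have hWIN : GoalWIN := Helper32.Sey3.goalWIN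
  have hREC : GoalREC := Helper87.Sey3.goalREC hEX hWIN
  have hSM : GoalSM := Helper40.Sey3.goalSM hSEU
  have hCOLP : GoalCOLP := Helper24.Sey3.goalCOLP hPICK hRES hSTL hMISS
  have hGP : GoalGP := Helper16.Sey3.goalGP hMCD hNEG
  have hTM : GoalTM := Helper2.Sey3.goalTM hPICK hSEL hRES hSTL hMISS
  have hIN : GoalIN := Helper71.Sey3.goalIN hEX
  have hV1 : GoalV1 := Helper23.Sey3.goalV1 hPICK hSEQ hRES hSTL hMISS
  have hV2 : GoalV2 := Helper51.Sey3.goalV2 hPICK hSEU hRES hSTL hMISS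
  have hLOC : GoalLOC := Helper70.Sey3.goalLOC
  have hLOC2 : GoalLOC2 := Helper85.Sey3.goalLOC2
  have hLOCP : GoalLOCP := Helper32.Sey3.goalLOCP
  have hGRE : GoalGRE := Helper32.Sey3.goalGRE hPROP
  have hCOREA : GoalCOREA := Helper7.Sey3.goalCOREA hGP hCOLP hSM hREC hTM hIN hV1 hV2
  have hCORE : GoalCORE := Helper20.Sey3.goalCORE hCOREA hLOC hLOC2 hLOCP hHOE hLL2 hGRE
  have hHALF : GoalHALF := Helper72.Sey3.goalHALF hMCD
  have hSPLIT : GoalSPLIT := Helper5.Sey3.goalSPLIT hHALF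
  have hDECA : GoalDECA := Helper56.Sey3.goalDECA
  have hDEC : GoalDEC := Helper16.Sey3.goalDEC hDECA
  exact Helper84.Sey3.goalMAIN hDEC hSPLIT hCORE

end Pool.Agent.Helper63.Sey3
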